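import Pool.Agent.Lib.RzT.Defs

/-!
A binary tree of right translations gives a subset without an invariant measure.
-/

set_option autoImplicit false

namespace RzT

variable {G : Type} [Group G]

/-- the nodes of the binary tree -/
def node (t : ℕ → G) (c : G) : List Bool → G
  | [] => 1
  | b :: l => node t c l * t l.length * (if b then c else 1)

theorem InvMeas.empty {m : Set G → ENNReal} (h : InvMeas m) {A : Set G} (hA : m A = 1) :
    m ∅ = 0 := by
  have h1 := h.1 A ∅ (Set.disjoint_empty A)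
  rw [Set.union_empty, hA] at h1
  by_contra hne
  have h2 : (1 : ENNReal) < 1 + m ∅ := ENNReal.lt_add_right ENNReal.one_ne_top hne
  exact absurd h1 (ne_of_lt h2)

theorem InvMeas.mono {m : Set G → ENNReal} (h : InvMeas m) {B C : Set G} (hBC : B ⊆ C) :
    m B ≤ m C := by
  have h1 : m (B ∪ (C \ B)) = m B + m (C \ B) := h.1 _ _ Set.disjoint_sdiff_right
  rw [Set.union_sdiff_cancel hBC] at h1
  rw [h1]
  exact le_self_add

theorem InvMeas.biUnion {m : Set G → ENNReal} (h : InvMeas m) (h0 : m ∅ = 0) {ι : Type}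
    (T : Finset ι) (B : ι → Set G) (hB : ∀ i ∈ T, ∀ j ∈ T, i ≠ j → Disjoint (B i) (B j)) :
    m (⋃ i ∈ T, B i) = ∑ i ∈ T, m (B i) := by
  classical
  induction T using Finset.induction_on with
  | empty => simp [h0]
  | insert a s ha ih =>
    rw [Finset.set_biUnion_insert, Finset.sum_insert ha, h.1, ih]
    · intro i hi j hj hij
      exact hB i (Finset.mem_insert_of_mem hi) j (Finset.mem_insert_of_mem hj) hij
    · rw [Set.disjoint_iUnion₂_right]
      intro j hj
      apply hB a (Finset.mem_insert_self _ _) j (Finset.mem_insert_of_mem hj)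
      rintro rfl
      exact ha hj

theorem node_cons_inv (t : ℕ → G) (c : G) (b : Bool) (l : List Bool) :
    (node t c (b :: l))⁻¹ =
      ((if b then c else 1)⁻¹ * (t l.length)⁻¹) * (node t c l)⁻¹ := by
  rw [node, mul_inv_rev, mul_inv_rev, mul_assoc]

theorem not_supra (T : Finset G) (t : ℕ → G) (ht : ∀ n, t n ∈ T) (c : G)
    (hinj : Function.Injective (node t c)) :
    ∃ A : Set G, A.Nonempty ∧ ¬ ∃ μ : Set G → ENNReal, μ A = 1 ∧ InvMeas μ := by
  classical
  refine ⟨{x | ∃ l, x = (node t c l)⁻¹}, ⟨_, ⟨[], rfl⟩⟩, ?_⟩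
  rintro ⟨μ, hμA, hμ⟩
  have h0 := hμ.empty hμA
  set A : Set G := {x | ∃ l, x = (node t c l)⁻¹} with hA
  let B : G → Set G := fun s => {x | ∃ l, t l.length = s ∧ x = (node t c l)⁻¹}
  have hAB : A = ⋃ s ∈ T, B s := by
    ext x
    simp only [hA, B, Set.mem_ofPred_eq, Set.mem_iUnion, exists_prop]
    constructor
    · rintro ⟨l, rfl⟩
      exact ⟨t l.length, ht l.length, l, rfl, rfl⟩
    · rintro ⟨s, -, l, -, rfl⟩
      exact ⟨l, rfl⟩
  have hBdis : ∀ i ∈ T, ∀ j ∈ T, i ≠ j → Disjoint (B i) (B j) := by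
    intro i _ j _ hij
    rw [Set.disjoint_left]
    rintro x ⟨l, hl, rfl⟩ ⟨l', hl', h⟩
    have h2 := hinj (inv_injective h)
    subst h2
    exact hij (hl.symm.trans hl')
  let Ch : Bool → Set G := fun b => {x | ∃ l, x = (node t c (b :: l))⁻¹}
  have hCh : ∀ b, μ (Ch b) = 1 := by
    intro b
    let D : G → Set G := fun s => (fun x => ((if b then c else 1)⁻¹ * s⁻¹) * x) '' B s
    have hU : Ch b = ⋃ s ∈ T, D s := by
      ext x
      simp only [Ch, D, B, Set.mem_ofPred_eq, Set.mem_iUnion, exists_prop, Set.mem_image]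
      constructor
      · rintro ⟨l, rfl⟩
        exact ⟨t l.length, ht l.length, (node t c l)⁻¹, ⟨l, rfl, rfl⟩,
          (node_cons_inv t c b l).symm⟩
      · rintro ⟨s, -, y, ⟨l, rfl, rfl⟩, rfl⟩
        exact ⟨l, (node_cons_inv t c b l).symm⟩
    have hDdis : ∀ i ∈ T, ∀ j ∈ T, i ≠ j → Disjoint (D i) (D j) := by
      intro i _ j _ hij
      rw [Set.disjoint_left]
      rintro x ⟨y, ⟨l, hl, rfl⟩, rfl⟩ ⟨z, ⟨l', hl', rfl⟩, h⟩
      have h2 : (node t c (b :: l'))⁻¹ = (node t c (b :: l))⁻¹ := by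
        subst hl
        subst hl'
        rw [node_cons_inv, node_cons_inv]
        exact h
      have h3 := hinj (inv_injective h2)
      have h4 : l' = l := by simpa using h3
      subst h4
      exact hij (hl.symm.trans hl')
    rw [hU, hμ.biUnion h0 T D hDdis, ← hμA, hAB, hμ.biUnion h0 T B hBdis]
    exact Finset.sum_congr rfl fun s _ => hμ.2 _ _
  have hdisj : Disjoint (Ch false) (Ch true) := by
    rw [Set.disjoint_left]
    rintro x ⟨l, rfl⟩ ⟨l', h⟩
    have h2 := hinj (inv_injective h)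
    simp at h2
  have hsub : Ch false ∪ Ch true ⊆ A := by
    rintro x (⟨l, rfl⟩ | ⟨l, rfl⟩)
    · exact ⟨_, rfl⟩
    · exact ⟨_, rfl⟩
  have h5 := hμ.mono hsub
  rw [hμ.1 _ _ hdisj, hCh, hCh, hμA] at h5
  have h6 : (1 : ENNReal) < 1 + 1 := ENNReal.lt_add_right ENNReal.one_ne_top one_ne_zero
  exact absurd h5 (not_le.mpr h6)

end RzT
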