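import Pool.Agent.Lib.RzT.Defs

/-!
Module AbF. Finite subsets of a commuting set have Folner sets inside the group they generate.

Proof. `C = {c_1, ..., c_r}` (r = C.card), `P N` = the set of products `∏ c^(e c)` with `e c < N`
(e.g. image of `Finset.pi`/`Fintype.piFinset` of functions `C → Fin N` under
`fun e => ∏ over C.attach.toList` or better `Finset.noncommProd`; simplest: work in the commutative group
`A = Subgroup.closure C` made commutative by `Subgroup.closureCommGroupOfComm`, or do it for a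
`CommGroup` first and transport). `|P N| ≤ N ^ r`, `1 ∈ P N` for `N ≥ 1`, `c * P N ⊆ P (N+1)` and
`P N ⊆ P (N+1)`. If for all `N ≥ 1` some `c` had `|c P N \ P N| > ε |P N|`, then
`|P (N+1)| ≥ (1+ε) |P N|`, so `(1+ε)^N ≤ |P (N+1)| ≤ (N+1) ^ r` for all `N`, a contradiction
(exponential beats polynomial).
-/

set_option autoImplicit false

namespace RzT

namespace AbFAux

open Classical in
/-- products with exponents smaller than `n` -/
noncomputable def P {B : Type} [CommGroup B] (C : Finset B) (n : ℕ) : Finset B :=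
  (Fintype.piFinset (fun _ : C => Finset.range n)).image (fun e => ∏ c : C, (c : B) ^ (e c))

theorem mem_P {B : Type} [CommGroup B] (C : Finset B) (n : ℕ) (x : B) :
    x ∈ P C n ↔ ∃ e : C → ℕ, (∀ c, e c < n) ∧ ∏ c : C, (c : B) ^ (e c) = x := by
  classical
  simp [P, Fintype.mem_piFinset]

theorem card_P {B : Type} [CommGroup B] (C : Finset B) (n : ℕ) : (P C n).card ≤ n ^ C.card := by
  classical
  unfold P
  refine Finset.card_image_le.trans ?_
  rw [Fintype.card_piFinset]
  simp

theorem P_mono {B : Type} [CommGroup B] (C : Finset B) (n : ℕ) : P C n ⊆ P C (n + 1) := by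
  intro x hx
  rw [mem_P] at hx ⊢
  obtain ⟨e, he, h⟩ := hx
  exact ⟨e, fun c => (he c).trans (Nat.lt_succ_self n), h⟩

theorem mul_mem_P {B : Type} [CommGroup B] (C : Finset B) (n : ℕ) {s x : B} (hs : s ∈ C)
    (hx : x ∈ P C n) : s * x ∈ P C (n + 1) := by
  classical
  rw [mem_P] at hx ⊢
  obtain ⟨e, he, h⟩ := hx
  refine ⟨fun c => (if c = ⟨s, hs⟩ then 1 else 0) + e c, fun c => ?_, ?_⟩
  · have := he c
    show (if c = ⟨s, hs⟩ then 1 else 0) + e c < n + 1
    split_ifs <;> omega
  · rw [← h]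
    simp only [pow_add]
    rw [Finset.prod_mul_distrib]
    congr 1
    rw [Finset.prod_eq_single (⟨s, hs⟩ : C)]
    · simp
    · intro c _ hc
      rw [if_neg hc, pow_zero]
    · intro h
      exact absurd (Finset.mem_univ _) h

theorem one_mem_P {B : Type} [CommGroup B] (C : Finset B) : (1 : B) ∈ P C 1 := by
  rw [mem_P]
  exact ⟨fun _ => 0, fun _ => Nat.zero_lt_one, by simp⟩

theorem comm_folner {B : Type} [CommGroup B] (C : Finset B) (ε : ℝ) (hε : 0 < ε) :
    ∃ K : Finset B, K.Nonempty ∧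
      ∀ s ∈ C, (Set.ncard {k : B | k ∈ K ∧ s * k ∉ K} : ℝ) ≤ ε * K.card := by
  classical
  by_contra hcon
  push Not at hcon
  have hne : ∀ n, (P C (n + 1)).Nonempty := by
    intro n
    induction n with
    | zero => exact ⟨1, one_mem_P C⟩
    | succ n ih =>
      obtain ⟨x, hx⟩ := ih
      exact ⟨x, P_mono C _ hx⟩
  have hgrow : ∀ n, (1 + ε) * ((P C (n + 1)).card : ℝ) ≤ ((P C (n + 1 + 1)).card : ℝ) := by
    intro n
    obtain ⟨s, hs, h⟩ := hcon (P C (n + 1)) (hne n)
    have hset : {k : B | k ∈ P C (n + 1) ∧ s * k ∉ P C (n + 1)} =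
        (((P C (n + 1)).filter fun k => s * k ∉ P C (n + 1) : Finset B) : Set B) := by
      ext k
      simp
    rw [hset, Set.ncard_coe_finset] at h
    have hdisj : Disjoint (P C (n + 1))
        (((P C (n + 1)).filter fun k => s * k ∉ P C (n + 1)).image fun k => s * k) := by
      rw [Finset.disjoint_right]
      intro y hy
      rw [Finset.mem_image] at hy
      obtain ⟨k, hk, rfl⟩ := hy
      exact (Finset.mem_filter.1 hk).2
    have hsub : P C (n + 1) ∪
        (((P C (n + 1)).filter fun k => s * k ∉ P C (n + 1)).image fun k => s * k) ⊆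
        P C (n + 1 + 1) := by
      apply Finset.union_subset (P_mono C _)
      intro y hy
      rw [Finset.mem_image] at hy
      obtain ⟨k, hk, rfl⟩ := hy
      exact mul_mem_P C _ hs (Finset.mem_filter.1 hk).1
    have hcard := Finset.card_le_card hsub
    rw [Finset.card_union_of_disjoint hdisj,
      Finset.card_image_of_injective _ (mul_right_injective s)] at hcard
    have hcard' : ((P C (n + 1)).card : ℝ) +
        (((P C (n + 1)).filter fun k => s * k ∉ P C (n + 1)).card : ℝ) ≤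
        ((P C (n + 1 + 1)).card : ℝ) := by exact_mod_cast hcard
    linarith
  have hpow : ∀ n : ℕ, (1 + ε) ^ n ≤ ((P C (n + 1)).card : ℝ) := by
    intro n
    induction n with
    | zero =>
      rw [pow_zero]
      have := Finset.card_pos.2 (hne 0)
      exact_mod_cast this
    | succ n ih =>
      calc (1 + ε) ^ (n + 1) = (1 + ε) * (1 + ε) ^ n := pow_succ' _ _
        _ ≤ (1 + ε) * ((P C (n + 1)).card : ℝ) := mul_le_mul_of_nonneg_left ih (by linarith)
        _ ≤ _ := hgrow n
  have hlim := (tendsto_pow_const_div_const_pow_of_one_lt C.card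
    (show (1 : ℝ) < 1 + ε by linarith)).comp (Filter.tendsto_add_atTop_nat 1)
  have hpos : (0 : ℝ) < 1 / (1 + ε) := by positivity
  obtain ⟨n, hn⟩ := (hlim.eventually (gt_mem_nhds hpos)).exists
  simp only [Function.comp] at hn
  have h1 : (1 + ε) ^ n ≤ ((n + 1 : ℕ) : ℝ) ^ C.card := by
    refine (hpow n).trans ?_
    exact_mod_cast card_P C (n + 1)
  have h2 : (0 : ℝ) < (1 + ε) ^ n := by positivity
  have h3 : (0 : ℝ) < 1 + ε := by linarith
  rw [pow_succ, div_lt_div_iff₀ (by positivity) h3, one_mul, mul_comm] at hn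
  have h4 : (1 + ε) * ((n + 1 : ℕ) : ℝ) ^ C.card < (1 + ε) * (1 + ε) ^ n := by
    rw [mul_comm (1 + ε) ((1 + ε) ^ n)]
    exact hn
  have h5 := lt_of_mul_lt_mul_left h4 h3.le
  linarith

end AbFAux

theorem abelian_folner {G : Type} [Group G] (A : Subgroup G) (hA : ∀ a ∈ A, ∀ b ∈ A, a * b = b * a)
    (C : Finset G) (hC : ∀ c ∈ C, c ∈ A) (ε : ℝ) (hε : 0 < ε) :
    ∃ K : Finset G, K.Nonempty ∧ (∀ k ∈ K, k ∈ A) ∧
      ∀ s ∈ C, (Set.ncard {k : G | k ∈ K ∧ s * k ∉ K} : ℝ) ≤ ε * K.card := by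
  classical
  let inst : CommGroup A := { (inferInstance : Group A) with
    mul_comm := fun a b => Subtype.ext (hA a a.2 b b.2) }
  obtain ⟨K, hK, h⟩ := @AbFAux.comm_folner A inst
    (C.attach.image fun c : {x // x ∈ C} => (⟨c.1, hC c.1 c.2⟩ : A)) ε hε
  refine ⟨K.map ⟨Subtype.val, Subtype.val_injective⟩, ?_, ?_, ?_⟩
  · obtain ⟨x, hx⟩ := hK
    exact ⟨x.1, Finset.mem_map.2 ⟨x, hx, rfl⟩⟩
  · intro k hk
    obtain ⟨x, _, rfl⟩ := Finset.mem_map.1 hk
    exact x.2
  · intro s hs
    have hmem : ∀ x : A, (x : G) ∈ K.map ⟨Subtype.val, Subtype.val_injective⟩ ↔ x ∈ K := by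
      intro x
      rw [Finset.mem_map]
      constructor
      · rintro ⟨y, hy, hyx⟩
        have : y = x := Subtype.ext hyx
        rwa [← this]
      · intro hx
        exact ⟨x, hx, rfl⟩
    have h1 := h ⟨s, hC s hs⟩ (by
      rw [Finset.mem_image]
      exact ⟨⟨s, hs⟩, Finset.mem_attach _ _, rfl⟩)
    have hset : {k : G | k ∈ K.map ⟨Subtype.val, Subtype.val_injective⟩ ∧
        s * k ∉ K.map ⟨Subtype.val, Subtype.val_injective⟩} =
        Subtype.val '' {k : A | k ∈ K ∧ (⟨s, hC s hs⟩ : A) * k ∉ K} := by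
      ext k
      constructor
      · rintro ⟨hk1, hk2⟩
        obtain ⟨x, hx, rfl⟩ := Finset.mem_map.1 hk1
        refine ⟨x, ⟨hx, fun hc => hk2 ?_⟩, rfl⟩
        exact (hmem (⟨s, hC s hs⟩ * x)).2 hc
      · rintro ⟨x, ⟨hx1, hx2⟩, rfl⟩
        refine ⟨(hmem x).2 hx1, fun hc => hx2 ?_⟩
        exact (hmem (⟨s, hC s hs⟩ * x)).1 hc
    rw [hset, Set.ncard_image_of_injective _ Subtype.val_injective, Finset.card_map]
    exact h1

end RzT
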