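import Pool.Agent.Lib.RzT.Defs

/-!
Module Amen. Folner sets give an invariant finitely additive probability on all subsets.

Proof. Index set `I = Finset G × ℕ` (directed), `U = Ultrafilter.of Filter.atTop`. For `i = (S, n)`
choose a Folner set `K i` for `S` and `ε = 1/(n+1)`. Put `r i B = |B ∩ K i| / |K i| ∈ [0,1]` (real),
`m B` = the limit of `ENNReal.ofReal (r i B)` along `U` (in the compact space `ENNReal`, or first in
`[0,1]`). Additivity: `r i (B ∪ C) = r i B + r i C` for disjoint `B, C`; `r i univ = 1`. Invariance: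
`| |gB ∩ K| - |B ∩ K| | ≤ |{k ∈ K : g⁻¹ k ∉ K}| + |{k ∈ K : g k ∉ K}| ≤ 2 |K| / (n+1)` as soon as
`g, g⁻¹ ∈ S`.
-/

set_option autoImplicit false

namespace RzT

namespace AmenAux

open Filter Topology

variable {G : Type} [Group G]

open Classical in
/-- density of `B` in `K` -/
noncomputable def dens (K : Finset G) (B : Set G) : ENNReal :=
  ((K.filter (fun k => k ∈ B)).card : ENNReal) / (K.card : ENNReal)

omit [Group G] in
theorem dens_univ (K : Finset G) (hK : K.Nonempty) : dens K Set.univ = 1 := by
  unfold dens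
  have e : (@Finset.filter G (fun k => k ∈ (Set.univ : Set G))
      (fun _ => Classical.propDecidable _) K) = K := by
    ext k
    simp
  rw [e]
  refine ENNReal.div_self ?_ (ENNReal.natCast_ne_top _)
  exact_mod_cast (Finset.card_pos.2 hK).ne'

omit [Group G] in
theorem dens_union (K : Finset G) (B C : Set G) (h : Disjoint B C) :
    dens K (B ∪ C) = dens K B + dens K C := by
  classical
  unfold dens
  rw [← ENNReal.add_div]
  congr 1
  have e : (K.filter (fun k => k ∈ B ∪ C)) = K.filter (fun k => k ∈ B) ∪ K.filter (fun k => k ∈ C) := by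
    ext k
    simp only [Finset.mem_filter, Finset.mem_union, Set.mem_union]
    tauto
  have hd : Disjoint (K.filter (fun k => k ∈ B)) (K.filter (fun k => k ∈ C)) := by
    rw [Finset.disjoint_left]
    intro k h1 h2
    exact (Set.disjoint_left.1 h) (Finset.mem_filter.1 h1).2 (Finset.mem_filter.1 h2).2
  have h2 := Finset.card_union_of_disjoint hd
  rw [← Nat.cast_add]
  congr 1
  rw [← h2]
  convert congrArg Finset.card e

theorem dens_smul (K : Finset G) (hK : K.Nonempty) (g : G) (B : Set G) (δ : ℝ)
    (h : (Set.ncard {k : G | k ∈ K ∧ g⁻¹ * k ∉ K} : ℝ) ≤ δ * K.card) :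
    dens K ((fun x => g * x) '' B) ≤ dens K B + ENNReal.ofReal δ := by
  classical
  have hKc : (K.card : ENNReal) ≠ 0 := by
    exact_mod_cast (Finset.card_pos.2 hK).ne'
  set N1 := (K.filter (fun k => k ∈ (fun x => g * x) '' B)).card with hN1
  set N2 := (K.filter (fun k => k ∈ B)).card with hN2
  set E : Finset G := K.filter (fun k => g⁻¹ * k ∉ K) with hE
  have hEn : Set.ncard {k : G | k ∈ K ∧ g⁻¹ * k ∉ K} = E.card := by
    rw [← Set.ncard_coe_finset]
    congr 1
    ext k
    simp [hE]
  have h12 : N1 ≤ N2 + E.card := by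
    have hsub : (K.filter (fun k => k ∈ (fun x => g * x) '' B)) ⊆
        (K.filter (fun k => k ∈ B)).image (fun x => g * x) ∪ E := by
      intro k hk
      rw [Finset.mem_filter] at hk
      obtain ⟨hk1, x, hx, hxk⟩ := hk
      simp only at hxk
      rw [Finset.mem_union]
      by_cases hxK : x ∈ K
      · left
        rw [Finset.mem_image]
        exact ⟨x, Finset.mem_filter.2 ⟨hxK, hx⟩, hxk⟩
      · right
        rw [hE, Finset.mem_filter]
        refine ⟨hk1, ?_⟩
        rw [← hxk, inv_mul_cancel_left]
        exact hxK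
    calc N1 ≤ ((K.filter (fun k => k ∈ B)).image (fun x => g * x) ∪ E).card :=
          Finset.card_le_card hsub
      _ ≤ ((K.filter (fun k => k ∈ B)).image (fun x => g * x)).card + E.card :=
          Finset.card_union_le _ _
      _ ≤ N2 + E.card := Nat.add_le_add_right Finset.card_image_le _
  have hE2 : (E.card : ENNReal) ≤ ENNReal.ofReal δ * K.card := by
    rw [hEn] at h
    have h1 : ENNReal.ofReal (E.card : ℝ) ≤ ENNReal.ofReal (δ * K.card) := ENNReal.ofReal_le_ofReal h
    rw [ENNReal.ofReal_natCast, ENNReal.ofReal_mul' (Nat.cast_nonneg _), ENNReal.ofReal_natCast] at h1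
    exact h1
  have e1 : dens K ((fun x => g * x) '' B) = (N1 : ENNReal) / K.card := by
    unfold dens
    congr 1
  have e2 : dens K B = (N2 : ENNReal) / K.card := by
    unfold dens
    congr 1
  rw [e1, e2]
  calc (N1 : ENNReal) / K.card ≤ ((N2 + E.card : ℕ) : ENNReal) / K.card := by
        apply ENNReal.div_le_div_right
        exact_mod_cast h12
    _ = (N2 : ENNReal) / K.card + (E.card : ENNReal) / K.card := by
        rw [Nat.cast_add, ENNReal.add_div]
    _ ≤ (N2 : ENNReal) / K.card + ENNReal.ofReal δ := by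
        gcongr
        exact ENNReal.div_le_of_le_mul hE2

end AmenAux

open AmenAux Filter Topology

theorem exists_meas {G : Type} [Group G] (hG : Folner G) :
    ∃ m : Set G → ENNReal, m Set.univ = 1 ∧ InvMeas m := by
  classical
  have hch : ∀ i : Finset G × ℕ, ∃ K : Finset G, K.Nonempty ∧
      ∀ s ∈ i.1, (Set.ncard {k : G | k ∈ K ∧ s * k ∉ K} : ℝ) ≤ (1 / ((i.2 : ℝ) + 1)) * K.card :=
    fun i => hG i.1 (1 / ((i.2 : ℝ) + 1)) (by positivity)
  choose K hKne hK using hch
  set U : Ultrafilter (Finset G × ℕ) := Ultrafilter.of atTop with hU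
  have hUle : (U : Filter (Finset G × ℕ)) ≤ atTop := Ultrafilter.of_le atTop
  set m : Set G → ENNReal := fun B => (U.map (fun i => dens (K i) B)).lim with hm
  have hlim : ∀ B, Tendsto (fun i => dens (K i) B) (U : Filter (Finset G × ℕ)) (𝓝 (m B)) := by
    intro B
    exact (U.map (fun i => dens (K i) B)).le_nhds_lim
  have hsmul : ∀ (g : G) (B : Set G), m ((fun x => g * x) '' B) ≤ m B := by
    intro g B
    have h1 : Tendsto (fun i : Finset G × ℕ => ENNReal.ofReal (1 / ((i.2 : ℝ) + 1)))
        (U : Filter (Finset G × ℕ)) (𝓝 0) := by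
      have h2 : Tendsto (fun i : Finset G × ℕ => i.2) atTop atTop := by
        rw [← prod_atTop_atTop_eq]
        exact tendsto_snd
      have h3 : Tendsto (fun n : ℕ => ENNReal.ofReal (1 / ((n : ℝ) + 1))) atTop (𝓝 0) := by
        have h4 := ENNReal.tendsto_ofReal (tendsto_one_div_add_atTop_nhds_zero_nat (𝕜 := ℝ))
        rwa [ENNReal.ofReal_zero] at h4
      exact (h3.comp h2).mono_left hUle
    have h2 := (hlim B).add h1
    rw [add_zero] at h2
    refine le_of_tendsto_of_tendsto (hlim ((fun x => g * x) '' B)) h2 ?_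
    have h3 : ∀ᶠ i : Finset G × ℕ in atTop, g⁻¹ ∈ i.1 := by
      filter_upwards [eventually_ge_atTop (({g⁻¹} : Finset G), 0)] with i hi
      exact hi.1 (Finset.mem_singleton_self _)
    filter_upwards [hUle h3] with i hi
    exact dens_smul (K i) (hKne i) g B _ (hK i g⁻¹ hi)
  refine ⟨m, ?_, ?_, ?_⟩
  · have h1 := hlim Set.univ
    have h2 : (fun i => dens (K i) (Set.univ : Set G)) = fun _ => 1 := by
      funext i
      exact dens_univ (K i) (hKne i)
    rw [h2] at h1
    exact tendsto_nhds_unique h1 tendsto_const_nhds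
  · intro B C hBC
    have h1 := (hlim B).add (hlim C)
    have h2 := hlim (B ∪ C)
    have h3 : (fun i => dens (K i) (B ∪ C)) = fun i => dens (K i) B + dens (K i) C := by
      funext i
      exact dens_union (K i) B C hBC
    rw [h3] at h2
    exact tendsto_nhds_unique h2 h1
  · intro g B
    apply le_antisymm (hsmul g B)
    have h1 := hsmul g⁻¹ ((fun x => g * x) '' B)
    have h2 : (fun x => g⁻¹ * x) '' ((fun x => g * x) '' B) = B := by
      rw [Set.image_image]
      simp
    rwa [h2] at h1

end RzT
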