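import Mathlib

/-!
MP_aeeb04_al. Torsion-free counterexamples to Rosenblatt's conjecture: `F/[N,N]` for `F/N` infinite,
periodic and with Folner sets.
-/

set_option autoImplicit false

namespace RzT

/-- Folner's condition. -/
def Folner (G : Type) [Group G] : Prop :=
  ∀ (S : Finset G) (ε : ℝ), 0 < ε → ∃ K : Finset G, K.Nonempty ∧
    ∀ s ∈ S, (Set.ncard {k : G | k ∈ K ∧ s * k ∉ K} : ℝ) ≤ ε * K.card

/-- `m` is a left invariant finitely additive `[0,∞]`-valued measure on all subsets of `G`. -/
def InvMeas {G : Type} [Group G] (m : Set G → ENNReal) : Prop :=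
  (∀ B C : Set G, Disjoint B C → m (B ∪ C) = m B + m C) ∧
    ∀ (g : G) (B : Set G), m ((fun x => g * x) '' B) = m B

end RzT
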