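import Pool.Agent.Lib.RzT.AbF

/-!
Module Ext. Folner's condition passes to extensions with abelian kernel.

Proof. Given `S`, `ε`. Let `Q` be a Folner set of `H` for `S.image π` and `ε/2`, `σ : H → G` a section
of `π` (`Function.surjInv`). For `s ∈ S`, `q ∈ Q` the element `c(s,q) = (σ (π s * q))⁻¹ * s * σ q` is in the
kernel `A`; let `C` be the finite set of the `c(s,q)`, `P ⊆ A` from `abelian_folner` for `C` and
`ε/2`. Take `K = {σ q * p : q ∈ Q, p ∈ P}` (image of `Q ×ˢ P`, the map is injective on it, so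
`|K| = |Q| |P|`). For `k = σ q * p ∈ K`: `s * k = σ (π s * q) * (c(s,q) * p)`, so `s * k ∉ K` implies
`π s * q ∉ Q` (at most `(ε/2)|Q|` values of `q`, `|P|` values of `p`) or `c(s,q) * p ∉ P` (for each
`q` at most `(ε/2)|P|` values of `p`).
-/

set_option autoImplicit false

namespace RzT

theorem ext_folner {G H : Type} [Group G] [Group H] (π : G →* H) (hπ : Function.Surjective π)
    (hA : ∀ a ∈ π.ker, ∀ b ∈ π.ker, a * b = b * a) (hH : Folner H) : Folner G := by
  classical
  intro S ε hε
  have hset : ∀ {G' : Type} [Group G'] (K : Finset G') (s : G'),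
      Set.ncard {k : G' | k ∈ K ∧ s * k ∉ K} = (K.filter fun k => s * k ∉ K).card := by
    intro G' _ K s
    rw [← Set.ncard_coe_finset]
    congr 1
    ext k
    simp
  obtain ⟨Q, hQne, hQ⟩ := hH (S.image π) (ε / 2) (by positivity)
  let σ : H → G := Function.surjInv hπ
  have hσ : ∀ h, π (σ h) = h := Function.surjInv_eq hπ
  let c : G → H → G := fun s q => (σ (π s * q))⁻¹ * s * σ q
  have hc : ∀ s q, c s q ∈ π.ker := by
    intro s q
    rw [MonoidHom.mem_ker]
    change π ((σ (π s * q))⁻¹ * s * σ q) = 1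
    rw [map_mul, map_mul, map_inv, hσ, hσ]
    group
  obtain ⟨P, hPne, hPA, hP⟩ := abelian_folner π.ker hA ((S ×ˢ Q).image fun x => c x.1 x.2)
    (by
      intro x hx
      rw [Finset.mem_image] at hx
      obtain ⟨y, _, rfl⟩ := hx
      exact hc _ _) (ε / 2) (by positivity)
  let f : H × G → G := fun x => σ x.1 * x.2
  have hinj : Set.InjOn f ((Q ×ˢ P : Finset (H × G)) : Set (H × G)) := by
    rintro ⟨q, p⟩ hx ⟨q', p'⟩ hy h
    rw [Finset.mem_coe, Finset.mem_product] at hx hy
    have h1 : σ q * p = σ q' * p' := h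
    have h2 := congrArg π h1
    rw [map_mul, map_mul, hσ, hσ, MonoidHom.mem_ker.mp (hPA p hx.2), MonoidHom.mem_ker.mp (hPA p' hy.2),
      mul_one, mul_one] at h2
    subst h2
    have h3 := mul_left_cancel h1
    rw [h3]
  refine ⟨(Q ×ˢ P).image f, (hQne.product hPne).image f, ?_⟩
  intro s hs
  have hKcard : ((Q ×ˢ P).image f).card = Q.card * P.card := by
    rw [Finset.card_image_of_injOn hinj, Finset.card_product]
  have hsub : (((Q ×ˢ P).image f).filter fun k => s * k ∉ (Q ×ˢ P).image f) ⊆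
      ((Q.filter fun q => π s * q ∉ Q) ×ˢ P).image f ∪
        Q.biUnion fun q => (P.filter fun p => c s q * p ∉ P).image fun p => f (q, p) := by
    intro k hk
    rw [Finset.mem_filter, Finset.mem_image] at hk
    obtain ⟨⟨⟨q, p⟩, hqp, rfl⟩, hk2⟩ := hk
    rw [Finset.mem_product] at hqp
    rw [Finset.mem_union]
    by_cases h1 : π s * q ∈ Q
    · right
      rw [Finset.mem_biUnion]
      refine ⟨q, hqp.1, ?_⟩
      rw [Finset.mem_image]
      refine ⟨p, ?_, rfl⟩
      rw [Finset.mem_filter]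
      refine ⟨hqp.2, fun h2 => hk2 ?_⟩
      rw [Finset.mem_image]
      refine ⟨(π s * q, c s q * p), ?_, ?_⟩
      · rw [Finset.mem_product]
        exact ⟨h1, h2⟩
      · change σ (π s * q) * ((σ (π s * q))⁻¹ * s * σ q * p) = s * (σ q * p)
        group
    · left
      rw [Finset.mem_image]
      refine ⟨(q, p), ?_, rfl⟩
      rw [Finset.mem_product, Finset.mem_filter]
      exact ⟨⟨hqp.1, h1⟩, hqp.2⟩
  rw [hset, hKcard]
  have h1 : ((Q.filter fun q => π s * q ∉ Q).card : ℝ) ≤ ε / 2 * Q.card := by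
    have h := hQ (π s) (Finset.mem_image_of_mem π hs)
    rw [hset] at h
    exact h
  have h2 : ∀ q ∈ Q, ((P.filter fun p => c s q * p ∉ P).card : ℝ) ≤ ε / 2 * P.card := by
    intro q hq
    have h := hP (c s q) (by
      rw [Finset.mem_image]
      exact ⟨(s, q), Finset.mem_product.mpr ⟨hs, hq⟩, rfl⟩)
    rw [hset] at h
    exact h
  have h3 : (((Q ×ˢ P).image f).filter fun k => s * k ∉ (Q ×ˢ P).image f).card ≤
      (Q.filter fun q => π s * q ∉ Q).card * P.card +
        ∑ q ∈ Q, (P.filter fun p => c s q * p ∉ P).card := by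
    refine (Finset.card_le_card hsub).trans ((Finset.card_union_le _ _).trans ?_)
    refine Nat.add_le_add ?_ ?_
    · refine Finset.card_image_le.trans ?_
      rw [Finset.card_product]
    · refine Finset.card_biUnion_le.trans (Finset.sum_le_sum fun q _ => Finset.card_image_le)
  have h4 : ((((Q ×ˢ P).image f).filter fun k => s * k ∉ (Q ×ˢ P).image f).card : ℝ) ≤
      ((Q.filter fun q => π s * q ∉ Q).card : ℝ) * P.card +
        ∑ q ∈ Q, ((P.filter fun p => c s q * p ∉ P).card : ℝ) := by
    exact_mod_cast h3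
  have h5 : ∑ q ∈ Q, ((P.filter fun p => c s q * p ∉ P).card : ℝ) ≤ Q.card * (ε / 2 * P.card) := by
    refine (Finset.sum_le_sum h2).trans ?_
    rw [Finset.sum_const, nsmul_eq_mul]
  have h6 : ((Q.filter fun q => π s * q ∉ Q).card : ℝ) * P.card ≤ ε / 2 * Q.card * P.card :=
    mul_le_mul_of_nonneg_right h1 (by positivity)
  refine h4.trans ?_
  push_cast
  nlinarith [h5, h6]

end RzT
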