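import Pool.Agent.Lib.RzT.Gen

/-!
A normal subgroup `N ≠ 1` of a free group contains an element with a nonzero flow.
-/

set_option autoImplicit false

namespace RzT

variable {n : ℕ} (N : Subgroup (FreeGroup (Fin n))) [N.Normal]

open Classical in
theorem Phi_true (i0 i : Fin n) (y : FreeGroup (Fin n) ⧸ N) :
    (Phi N i0 (FreeGroup.mk [(i, true)])).f y = if i = i0 ∧ y = 1 then 1 else 0 := by
  have h : FreeGroup.mk [(i, true)] = FreeGroup.of i := rfl
  rw [h]
  by_cases h1 : i = i0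
  · by_cases h2 : y = 1
    · subst h2; simp [Phi, h1]
    · simp [Phi, h1, h2]
  · simp [Phi, h1]

open Classical in
theorem Phi_false (i0 i : Fin n) (y : FreeGroup (Fin n) ⧸ N) :
    (Phi N i0 (FreeGroup.mk [(i, false)])).f y =
      if i = i0 ∧ y = (QuotientGroup.mk (FreeGroup.of i0))⁻¹ then -1 else 0 := by
  have h : FreeGroup.mk [(i, false)] = (FreeGroup.of i)⁻¹ := rfl
  have h3 := Phi_true N i0 i ((QuotientGroup.mk (FreeGroup.of i)) * y)
  have h4 : FreeGroup.mk [(i, true)] = FreeGroup.of i := rfl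
  rw [h4] at h3
  rw [h, map_inv, W.inv_f, Phi_h, h3]
  by_cases h1 : i = i0
  · subst h1
    by_cases h2 : y = (QuotientGroup.mk (FreeGroup.of i))⁻¹
    · have h5 : (QuotientGroup.mk (FreeGroup.of i) : FreeGroup (Fin n) ⧸ N) * y = 1 := by
        rw [h2, mul_inv_cancel]
      simp [h2]
    · have h5 : ¬ (QuotientGroup.mk (FreeGroup.of i) : FreeGroup (Fin n) ⧸ N) * y = 1 := by
        intro h6
        exact h2 (eq_inv_of_mul_eq_one_right h6)
      simp [h5, h2]
  · simp [h1]

theorem Phi_cons (i0 : Fin n) (a : Fin n × Bool) (L : List (Fin n × Bool))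
    (y : FreeGroup (Fin n) ⧸ N) : (Phi N i0 (FreeGroup.mk (a :: L))).f y =
      (Phi N i0 (FreeGroup.mk [a])).f y +
        (Phi N i0 (FreeGroup.mk L)).f ((QuotientGroup.mk (FreeGroup.mk [a]))⁻¹ * y) := by
  have h : FreeGroup.mk (a :: L) = FreeGroup.mk [a] * FreeGroup.mk L := by
    rw [FreeGroup.mul_mk]; rfl
  rw [h, map_mul, W.mul_f, Phi_h]

theorem sign_split (i0 : Fin n) (L : List (Fin n × Bool)) : ∀ y : FreeGroup (Fin n) ⧸ N,
    ((Phi N i0 (FreeGroup.mk L)).f y < 0 → ∃ L1 L2, L = L1 ++ (i0, false) :: L2 ∧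
      (QuotientGroup.mk (FreeGroup.mk L1) : FreeGroup (Fin n) ⧸ N) *
        (QuotientGroup.mk (FreeGroup.of i0))⁻¹ = y) ∧
    (0 < (Phi N i0 (FreeGroup.mk L)).f y → ∃ L1 L2, L = L1 ++ (i0, true) :: L2 ∧
      (QuotientGroup.mk (FreeGroup.mk L1) : FreeGroup (Fin n) ⧸ N) = y) := by
  induction L with
  | nil =>
    intro y
    have h : (Phi N i0 (FreeGroup.mk [])).f y = 0 := by
      have : FreeGroup.mk ([] : List (Fin n × Bool)) = 1 := rfl
      rw [this, map_one, W.one_f]
    rw [h]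
    exact ⟨fun h => absurd h (lt_irrefl _), fun h => absurd h (lt_irrefl _)⟩
  | cons a L ih =>
    intro y
    have hmk : ∀ L1 : List (Fin n × Bool),
        (QuotientGroup.mk (FreeGroup.mk (a :: L1)) : FreeGroup (Fin n) ⧸ N) =
          QuotientGroup.mk (FreeGroup.mk [a]) * QuotientGroup.mk (FreeGroup.mk L1) := by
      intro L1
      rw [← QuotientGroup.mk_mul, FreeGroup.mul_mk]
      rfl
    obtain ⟨ih1, ih2⟩ := ih ((QuotientGroup.mk (FreeGroup.mk [a]))⁻¹ * y)
    rw [Phi_cons]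
    constructor
    · intro h
      by_cases h1 : (Phi N i0 (FreeGroup.mk L)).f
          ((QuotientGroup.mk (FreeGroup.mk [a]))⁻¹ * y) < 0
      · obtain ⟨L1, L2, hL, hy⟩ := ih1 h1
        refine ⟨a :: L1, L2, by rw [hL]; rfl, ?_⟩
        rw [hmk, mul_assoc, hy, mul_inv_cancel_left]
      · have h2 : (Phi N i0 (FreeGroup.mk [a])).f y < 0 := by omega
        obtain ⟨i, b⟩ := a
        cases b
        · rw [Phi_false] at h2
          by_cases h3 : i = i0 ∧ y = (QuotientGroup.mk (FreeGroup.of i0))⁻¹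
          · refine ⟨[], L, by rw [h3.1]; rfl, ?_⟩
            have : FreeGroup.mk ([] : List (Fin n × Bool)) = 1 := rfl
            rw [this, QuotientGroup.mk_one, one_mul, h3.2]
          · rw [if_neg h3] at h2
            exact absurd h2 (lt_irrefl _)
        · rw [Phi_true] at h2
          split_ifs at h2 <;> omega
    · intro h
      by_cases h1 : 0 < (Phi N i0 (FreeGroup.mk L)).f
          ((QuotientGroup.mk (FreeGroup.mk [a]))⁻¹ * y)
      · obtain ⟨L1, L2, hL, hy⟩ := ih2 h1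
        refine ⟨a :: L1, L2, by rw [hL]; rfl, ?_⟩
        rw [hmk, hy, mul_inv_cancel_left]
      · have h2 : 0 < (Phi N i0 (FreeGroup.mk [a])).f y := by omega
        obtain ⟨i, b⟩ := a
        cases b
        · rw [Phi_false] at h2
          split_ifs at h2 <;> omega
        · rw [Phi_true] at h2
          by_cases h3 : i = i0 ∧ y = 1
          · refine ⟨[], L, by rw [h3.1]; rfl, ?_⟩
            have : FreeGroup.mk ([] : List (Fin n × Bool)) = 1 := rfl
            rw [this, QuotientGroup.mk_one, h3.2]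
          · rw [if_neg h3] at h2
            exact absurd h2 (lt_irrefl _)

theorem exists_flow (hN : N ≠ ⊥) : ∃ (i0 : Fin n) (r : FreeGroup (Fin n))
    (y0 : FreeGroup (Fin n) ⧸ N), r ∈ N ∧ (Phi N i0 r).f y0 ≠ 0 := by
  classical
  by_contra hcon
  push Not at hcon
  obtain ⟨⟨w0, hw0⟩, hne⟩ := Subgroup.ne_bot_iff_exists_ne_one.mp hN
  have hw01 : w0 ≠ 1 := fun h => hne (Subtype.ext h)
  have hex : ∃ k : ℕ, ∃ w : FreeGroup (Fin n), w ∈ N ∧ w ≠ 1 ∧ w.toWord.length = k :=
    ⟨_, w0, hw0, hw01, rfl⟩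
  obtain ⟨w, hw, hw1, hlen⟩ := Nat.find_spec hex
  have hmin : ∀ v : FreeGroup (Fin n), v ∈ N → v.toWord.length < w.toWord.length → v = 1 := by
    intro v hv hvl
    by_contra hv1
    rw [hlen] at hvl
    exact Nat.find_min hex hvl ⟨v, hv, hv1, rfl⟩
  have hred : FreeGroup.IsReduced w.toWord := FreeGroup.isReduced_toWord
  have hmk : FreeGroup.mk w.toWord = w := FreeGroup.mk_toWord
  have hnil : w.toWord ≠ [] := fun h => hw1 (FreeGroup.toWord_eq_nil_iff.mp h)
  obtain ⟨a, L', hL⟩ := List.exists_cons_of_ne_nil hnil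
  -- a closed proper initial part of the rest is empty
  have hpre : ∀ (L1 : List (Fin n × Bool)) (x : Fin n × Bool) (L2 : List (Fin n × Bool)),
      L' = L1 ++ x :: L2 → (QuotientGroup.mk (FreeGroup.mk L1) : FreeGroup (Fin n) ⧸ N) = 1 →
      L1 = [] := by
    intro L1 x L2 hLL h1
    have hred1 : FreeGroup.IsReduced L1 := by
      have h3 : FreeGroup.IsReduced (a :: (L1 ++ x :: L2)) := by
        rw [← hLL, ← hL]
        exact hred
      have h4 : FreeGroup.IsReduced (L1 ++ x :: L2) := List.IsChain.tail h3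
      exact List.IsChain.left_of_append h4
    have htw : (FreeGroup.mk L1).toWord = L1 := by
      rw [FreeGroup.toWord_mk]; exact hred1.reduce_eq
    have h2 := hmin (FreeGroup.mk L1) ((QuotientGroup.eq_one_iff _).mp h1) (by
      rw [htw, hL, hLL]
      simp)
    rw [h2] at htw
    rw [← htw]
    exact FreeGroup.toWord_one
  obtain ⟨i, b⟩ := a
  have hw' : FreeGroup.mk ((i, b) :: L') = w := by rw [← hL]; exact hmk
  cases b
  · -- first letter inverse
    have h1 := hcon i w (QuotientGroup.mk (FreeGroup.of i))⁻¹ hw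
    rw [← hw', Phi_cons, Phi_false, if_pos ⟨rfl, rfl⟩] at h1
    have h2 : (QuotientGroup.mk (FreeGroup.mk [(i, false)]) : FreeGroup (Fin n) ⧸ N)⁻¹ *
        (QuotientGroup.mk (FreeGroup.of i))⁻¹ = 1 := by
      have : FreeGroup.mk [(i, false)] = (FreeGroup.of i)⁻¹ := rfl
      rw [this, QuotientGroup.mk_inv, inv_inv, mul_inv_cancel]
    rw [h2] at h1
    obtain ⟨L1, L2, hLL, hy⟩ := (sign_split N i L' 1).2 (by omega)
    have h3 := hpre L1 _ L2 hLL hy
    rw [h3, List.nil_append] at hLL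
    rw [hL, hLL, FreeGroup.isReduced_cons_cons] at hred
    exact absurd (hred.1 rfl) (by simp)
  · have h1 := hcon i w 1 hw
    rw [← hw', Phi_cons, Phi_true, if_pos ⟨rfl, rfl⟩, mul_one] at h1
    have h2 : (QuotientGroup.mk (FreeGroup.mk [(i, true)]) : FreeGroup (Fin n) ⧸ N) =
        QuotientGroup.mk (FreeGroup.of i) := rfl
    rw [h2] at h1
    obtain ⟨L1, L2, hLL, hy⟩ := (sign_split N i L' _).1 (by omega : (Phi N i (FreeGroup.mk L')).f
      (QuotientGroup.mk (FreeGroup.of i))⁻¹ < 0)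
    have h3 := hpre L1 _ L2 hLL (by simpa using hy)
    rw [h3, List.nil_append] at hLL
    rw [hL, hLL, FreeGroup.isReduced_cons_cons] at hred
    exact absurd (hred.1 rfl) (by simp)

end RzT
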