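import Pool.Agent.Lib.RzT.Flow

/-!
The general theorem on `F/[N,N]`, `N ≠ 1` of infinite index.
-/

set_option autoImplicit false

namespace RzT

variable {n : ℕ} (N : Subgroup (FreeGroup (Fin n))) [N.Normal]

theorem exists_D (hN : N ≠ ⊥) : ∃ (i0 : Fin n) (c : FreeGroup (Fin n) ⧸ ⁅N, N⁆)
    (D : Set (FreeGroup (Fin n) ⧸ N)), D.Finite ∧
    ∀ t : ℕ → FreeGroup (Fin n) ⧸ ⁅N, N⁆,
      (∀ i j : ℕ, i < j → (pr (fun k => (Psi N i0 (t k)).h) i)⁻¹ *
        pr (fun k => (Psi N i0 (t k)).h) j ∉ D) → Function.Injective (node t c) := by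
  obtain ⟨i0, r, y0, hr, hy0⟩ := exists_flow N hN
  have hS := flow_finite N i0 r
  refine ⟨i0, QuotientGroup.mk r,
    ((fun y => y * y0⁻¹) '' {y | (Phi N i0 r).f y ≠ 0}) ∪
      ((fun y => (y * y0⁻¹)⁻¹) '' {y | (Phi N i0 r).f y ≠ 0}),
    (hS.image _).union (hS.image _), ?_⟩
  intro t ht
  apply node_inj' (Psi N i0) t (QuotientGroup.mk r) y0 _ _ _ _ ht
  · rw [Psi_mk, Phi_h]
    exact (QuotientGroup.eq_one_iff _).mpr hr
  · rw [Psi_mk]; exact hy0
  · intro y hy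
    rw [Psi_mk] at hy
    exact ⟨Or.inl ⟨y, hy, rfl⟩, Or.inr ⟨y, hy, rfl⟩⟩

theorem not_supra' (hN : N ≠ ⊥) [Infinite (FreeGroup (Fin n) ⧸ N)] :
    ∃ A : Set (FreeGroup (Fin n) ⧸ ⁅N, N⁆), A.Nonempty ∧
      ¬ ∃ μ : Set (FreeGroup (Fin n) ⧸ ⁅N, N⁆) → ENNReal, μ A = 1 ∧ InvMeas μ := by
  classical
  obtain ⟨i0, c, D, hDfin, hinj⟩ := exists_D N hN
  obtain ⟨T, t, hT, hD⟩ := exists_ray (H := FreeGroup (Fin n) ⧸ N)
    (Finset.univ.image fun i : Fin n =>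
      (QuotientGroup.mk (FreeGroup.of i) : FreeGroup (Fin n) ⧸ N))
    (by
      have h1 : ((Finset.univ.image fun i : Fin n =>
          (QuotientGroup.mk (FreeGroup.of i) : FreeGroup (Fin n) ⧸ N)) :
          Set (FreeGroup (Fin n) ⧸ N)) = (QuotientGroup.mk' N) '' (Set.range FreeGroup.of) := by
        ext y
        simp
      rw [h1, ← MonoidHom.map_closure, FreeGroup.closure_range_of]
      exact Subgroup.map_top_of_surjective _ (QuotientGroup.mk'_surjective N))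
    hDfin.toFinset
  let σ : FreeGroup (Fin n) ⧸ N → FreeGroup (Fin n) ⧸ ⁅N, N⁆ := fun y => QuotientGroup.mk y.out
  have hσ : ∀ y, (Psi N i0 (σ y)).h = y := by
    intro y
    rw [Psi_mk, Phi_h]
    exact QuotientGroup.out_eq' y
  have hpr : (fun k => (Psi N i0 (σ (t k))).h) = t := by
    funext k
    exact hσ _
  refine not_supra (T.image σ) (fun k => σ (t k)) (fun k => Finset.mem_image_of_mem _ (hT k)) c ?_
  apply hinj
  intro i j hij
  rw [hpr]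
  have := hD i j hij
  rwa [Set.Finite.mem_toFinset] at this

theorem free_of_not_periodic (hN : N ≠ ⊥) (w : FreeGroup (Fin n))
    (hw : ∀ k : ℕ, 0 < k → w ^ k ∉ N) :
    ∃ f : Fin 2 → FreeGroup (Fin n) ⧸ ⁅N, N⁆, Function.Injective ⇑(FreeSemigroup.lift f) := by
  obtain ⟨i0, c, D, hDfin, hinj⟩ := exists_D N hN
  let h : FreeGroup (Fin n) ⧸ N := QuotientGroup.mk w
  have hord : ¬ IsOfFinOrder h := by
    rw [isOfFinOrder_iff_pow_eq_one]
    rintro ⟨k, hk, hk1⟩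
    apply hw k hk
    rw [← QuotientGroup.eq_one_iff, QuotientGroup.mk_pow]
    exact hk1
  have hpinj : Function.Injective fun k : ℕ => h ^ k := injective_pow_iff_not_isOfFinOrder.mpr hord
  have hfin : {k : ℕ | h ^ k ∈ D}.Finite := hDfin.preimage (hpinj.injOn)
  obtain ⟨L0, hL0⟩ := hfin.bddAbove
  have hL : ∀ m : ℕ, 0 < m → h ^ ((L0 + 1) * m) ∉ D := by
    intro m hm hmem
    have h1 : (L0 + 1) * m ≤ L0 := hL0 hmem
    have h2 : L0 + 1 ≤ (L0 + 1) * m := Nat.le_mul_of_pos_right _ hm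
    omega
  apply free_of_inj (QuotientGroup.mk (w ^ (L0 + 1))) c
  apply hinj
  intro i j hij
  have hh : (Psi N i0 (QuotientGroup.mk (w ^ (L0 + 1)))).h = h ^ (L0 + 1) := by
    rw [Psi_mk, Phi_h, QuotientGroup.mk_pow]
  rw [hh, pr_const, pr_const]
  have h3 : ((h ^ (L0 + 1)) ^ i)⁻¹ * (h ^ (L0 + 1)) ^ j = h ^ ((L0 + 1) * (j - i)) := by
    obtain ⟨m, rfl⟩ := Nat.exists_eq_add_of_lt hij
    have : i + m + 1 - i = m + 1 := by omega
    rw [this, pow_mul, show i + m + 1 = i + (m + 1) by omega,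
      pow_add (h ^ (L0 + 1)) i (m + 1), inv_mul_cancel_left]
  rw [h3]
  exact hL (j - i) (by omega)

theorem ne_bot_of_periodic [Infinite (FreeGroup (Fin n) ⧸ N)]
    (hper : ∀ w : FreeGroup (Fin n), ∃ k : ℕ, 0 < k ∧ w ^ k ∈ N) : N ≠ ⊥ := by
  intro hbot
  have hn : 0 < n := by
    rcases Nat.eq_zero_or_pos n with h | h
    · subst h
      exfalso
      have : Finite (FreeGroup (Fin 0)) := inferInstance
      have : Finite (FreeGroup (Fin 0) ⧸ N) := inferInstance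
      exact not_finite (FreeGroup (Fin 0) ⧸ N)
    · exact h
  obtain ⟨k, hk, h⟩ := hper (FreeGroup.of ⟨0, hn⟩)
  rw [hbot, Subgroup.mem_bot] at h
  have h1 := FreeGroup.norm_of_pow (⟨0, hn⟩ : Fin n) k
  rw [h, FreeGroup.norm_one] at h1
  omega

theorem full (hN : N ≠ ⊥) [Infinite (FreeGroup (Fin n) ⧸ N)] :
    (∀ (g : FreeGroup (Fin n) ⧸ ⁅N, N⁆) (k : ℕ), 0 < k → g ^ k = 1 → g = 1) ∧
    ((∃ f : Fin 2 → FreeGroup (Fin n) ⧸ ⁅N, N⁆, Function.Injective ⇑(FreeSemigroup.lift f)) ↔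
      ∃ w : FreeGroup (Fin n), ∀ k : ℕ, 0 < k → w ^ k ∉ N) ∧
    (∃ A : Set (FreeGroup (Fin n) ⧸ ⁅N, N⁆), A.Nonempty ∧
      ¬ ∃ μ : Set (FreeGroup (Fin n) ⧸ ⁅N, N⁆) → ENNReal, μ A = 1 ∧ InvMeas μ) ∧
    (Folner (FreeGroup (Fin n) ⧸ N) →
      ∃ m : Set (FreeGroup (Fin n) ⧸ ⁅N, N⁆) → ENNReal, m Set.univ = 1 ∧ InvMeas m) := by
  refine ⟨?_, ⟨?_, ?_⟩, not_supra' N hN, ?_⟩
  · intro g k hk hg
    obtain ⟨w, rfl⟩ := QuotientGroup.mk_surjective g
    rw [← QuotientGroup.mk_pow, QuotientGroup.eq_one_iff] at hg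
    exact (QuotientGroup.eq_one_iff _).mpr (torsionfree N w k hk hg)
  · rintro ⟨f, hf⟩
    by_contra hcon
    push Not at hcon
    obtain ⟨a, ha⟩ := QuotientGroup.mk_surjective (f 0)
    obtain ⟨b, hb⟩ := QuotientGroup.mk_surjective (f 1)
    obtain ⟨p, hp, hap⟩ := hcon a
    obtain ⟨q, hq, hbq⟩ := hcon b
    refine no_free f p q hp hq ?_ hf
    rw [← ha, ← hb, ← QuotientGroup.mk_pow, ← QuotientGroup.mk_pow]
    exact mk_comm N hap hbq
  · rintro ⟨w, hw⟩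
    exact free_of_not_periodic N hN w hw
  · intro hF
    have h1 : Folner (FreeGroup (Fin n) ⧸ ⁅N, N⁆) := by
      have hle : ⁅N, N⁆ ≤ N := Subgroup.commutator_le_self N
      let π : FreeGroup (Fin n) ⧸ ⁅N, N⁆ →* FreeGroup (Fin n) ⧸ N :=
        QuotientGroup.lift ⁅N, N⁆ (QuotientGroup.mk' N)
          (fun w hw => (QuotientGroup.eq_one_iff w).mpr (hle hw))
      apply ext_folner π
      · intro y
        obtain ⟨w, rfl⟩ := QuotientGroup.mk_surjective y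
        exact ⟨QuotientGroup.mk w, rfl⟩
      · intro a ha b hb
        obtain ⟨a, rfl⟩ := QuotientGroup.mk_surjective a
        obtain ⟨b, rfl⟩ := QuotientGroup.mk_surjective b
        have ha' : (QuotientGroup.mk a : FreeGroup (Fin n) ⧸ N) = 1 := ha
        have hb' : (QuotientGroup.mk b : FreeGroup (Fin n) ⧸ N) = 1 := hb
        rw [QuotientGroup.eq_one_iff] at ha' hb'
        exact mk_comm N ha' hb'
      · exact hF
    exact exists_meas h1

end RzT
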