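import Pool.Agent.Lib.RzT.Defs

/-!
Module GFol. Subexponential growth gives Folner sets.

Proof. Given `S`, `ε`: choose `L ≥ 1` that works for all `g ∈ S` in `hmul` (enlarge by monotonicity).
If for every `k` some `s ∈ S` had `|{x ∈ E (kL) : s x ∉ E (kL)}| > ε |E (kL)|`, then, as
`s E(kL) ⊆ E ((k+1)L)`, `|E ((k+1)L)| ≥ (1+ε) |E (kL)|`, so `(1+ε)^k ≤ |E (kL)| ≤ K θ^(kL)` for all `k`;
contradiction for `θ > 1` with `θ^L < 1 + ε` (e.g. `θ^L ≤ 1 + ε/2`).
-/

set_option autoImplicit false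

namespace RzT

theorem folner_of_growth {G : Type} [Group G] (E : ℕ → Set G) (hfin : ∀ R, (E R).Finite)
    (hne : (E 0).Nonempty) (hmono : ∀ R R' : ℕ, R ≤ R' → E R ⊆ E R')
    (hmul : ∀ g : G, ∃ L : ℕ, ∀ R : ℕ, ∀ x ∈ E R, g * x ∈ E (R + L))
    (hsub : ∀ θ : ℝ, 1 < θ → ∃ K : ℝ, 0 < K ∧ ∀ R : ℕ, ((E R).ncard : ℝ) ≤ K * θ ^ R) :
    Folner G := by
  classical
  intro S ε hε
  choose f hf using hmul
  set L : ℕ := S.sup f + 1 with hL
  have hLpos : 0 < L := by omega
  have hSL : ∀ g ∈ S, ∀ R : ℕ, ∀ x ∈ E R, g * x ∈ E (R + L) := by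
    intro g hg R x hx
    refine hmono (R + f g) (R + L) ?_ (hf g R x hx)
    have : f g ≤ S.sup f := Finset.le_sup hg
    omega
  by_contra hcon
  push Not at hcon
  have hstep : ∀ k : ℕ, (1 + ε) * ((E (k * L)).ncard : ℝ) ≤ ((E ((k + 1) * L)).ncard : ℝ) := by
    intro k
    set F : Finset G := (hfin (k * L)).toFinset with hF
    have hmem : ∀ x, x ∈ F ↔ x ∈ E (k * L) := fun x => by rw [hF, Set.Finite.mem_toFinset]
    have hFne : F.Nonempty := by
      obtain ⟨x, hx⟩ := hne
      exact ⟨x, (hmem x).2 (hmono 0 (k * L) (Nat.zero_le _) hx)⟩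
    obtain ⟨s, hs, hlt⟩ := hcon F hFne
    have hcard : ((E (k * L)).ncard : ℝ) = (F.card : ℝ) := by
      rw [hF, Set.ncard_eq_toFinset_card _ (hfin (k * L))]
    set B : Finset G := F.filter fun x => s * x ∉ F with hB
    have hBset : {x : G | x ∈ F ∧ s * x ∉ F} = (B : Set G) := by
      ext x
      simp [hB]
    rw [hBset, Set.ncard_coe_finset] at hlt
    set I : Finset G := B.image fun x => s * x with hI
    have hIcard : I.card = B.card := Finset.card_image_of_injective _ (mul_right_injective s)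
    have hdisj : Disjoint F I := by
      rw [Finset.disjoint_left]
      intro y hy hyI
      rw [hI, Finset.mem_image] at hyI
      obtain ⟨x, hx, rfl⟩ := hyI
      exact (Finset.mem_filter.1 hx).2 hy
    have hsubs : ((F ∪ I : Finset G) : Set G) ⊆ E ((k + 1) * L) := by
      intro y hy
      rw [Finset.mem_coe, Finset.mem_union] at hy
      rcases hy with hy | hy
      · refine hmono (k * L) _ ?_ ((hmem y).1 hy)
        exact Nat.mul_le_mul_right L (Nat.le_succ k)
      · rw [hI, Finset.mem_image] at hy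
        obtain ⟨x, hx, rfl⟩ := hy
        have hx' := (hmem x).1 (Finset.mem_filter.1 hx).1
        rw [Nat.succ_mul]
        exact hSL s hs (k * L) x hx'
    have hle : (F ∪ I).card ≤ (E ((k + 1) * L)).ncard := by
      rw [← Set.ncard_coe_finset]
      exact Set.ncard_le_ncard hsubs (hfin _)
    rw [Finset.card_union_of_disjoint hdisj, hIcard] at hle
    have hle' : (F.card : ℝ) + B.card ≤ ((E ((k + 1) * L)).ncard : ℝ) := by exact_mod_cast hle
    rw [hcard]
    linarith
  have hpow : ∀ k : ℕ, (1 + ε) ^ k ≤ ((E (k * L)).ncard : ℝ) := by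
    intro k
    induction k with
    | zero =>
      rw [pow_zero, zero_mul]
      have : 0 < (E 0).ncard := (Set.ncard_pos (hfin 0)).2 hne
      exact_mod_cast this
    | succ k ih =>
      rw [pow_succ']
      exact (mul_le_mul_of_nonneg_left ih (by linarith)).trans (hstep k)
  set θ : ℝ := (1 + ε / 2) ^ ((L : ℝ)⁻¹) with hθ
  have hθ1 : 1 < θ := Real.one_lt_rpow (by linarith) (by positivity)
  have hθL : θ ^ L = 1 + ε / 2 := Real.rpow_inv_natCast_pow (by linarith) hLpos.ne'
  obtain ⟨K, hK, hKb⟩ := hsub θ hθ1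
  have hr : 1 < (1 + ε) / (1 + ε / 2) := by
    rw [one_lt_div (by linarith)]
    linarith
  obtain ⟨k, hk⟩ := pow_unbounded_of_one_lt K hr
  have h1 := (hpow k).trans (hKb (k * L))
  rw [mul_comm k L, pow_mul, hθL] at h1
  rw [div_pow, lt_div_iff₀ (by positivity)] at hk
  linarith

end RzT
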