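import Pool.Agent.Lib.RzT.Defs
import Pool.Agent.Lib.Pb99418A.Contract
import Pool.Agent.Lib.Pb99418.Upper

/-!
Module GGrowA. The growth recursion of the Grigorchuk group in weighted balls.

`nw` = natural weights: `a ↦ 0, b ↦ 100, c ↦ 82, d ↦ 67`, so `(nw s : ℝ) = wgt 100 82 67 s`.

Proof of `EW_rec`: for `g ∈ EW R` with word `s`, `contract` (X=100, Y=82, V=67) gives words
`t false, t true` for the two sections with `nw (t false) + nw (t true) ≤ wgt 82 67 51 s + 147
≤ 0.82 * nw s + 147` (`82 = .82*100`, `67 ≤ .82*82`, `51 ≤ .82*67`), an integer, hence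
`≤ 82*R/100 + 147 = Mb R`. The map `g ↦ (par s, elt (t false), elt (t true))` is injective
(`run_cons_word`), with values in `Bool × ⋃_{i ≤ Mb R} EW i ×ˢ EW (Mb R - i)`; so
`|EW R| ≤ 2 * Σ_{i ≤ Mb R} |EW i| |EW (Mb R - i)|`.
Proof of `EW_exp`: `normal_form` with p=100, q=82, r=67: `g = a^u z₁ a ... z_m a a^e`, with
`67 m ≤ wgt (P1 zs) ≤ R`, so `m ≤ R`; at most `4 * Σ_{m ≤ R} 3^m ≤ 12 * 3^R` elements.
-/

set_option autoImplicit false

namespace RzT

open Pool.Agent.Lib.Pb99418 Pool.Agent.Lib.Pb99418A

/-- natural weights -/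
def nwl : Gen → ℕ
  | Gen.a => 0
  | Gen.b => 100
  | Gen.c => 82
  | Gen.d => 67

/-- natural weight of a word -/
def nw (s : List Gen) : ℕ := (s.map nwl).sum

/-- the elements represented by a word of weight at most `R` -/
def EW (R : ℕ) : Set G :=
  {g | ∃ s : List Gen, (∀ w, (g : Equiv.Perm (List Bool)) w = run s w) ∧ nw s ≤ R}

/-- the bound for the total weight of the two sections -/
def Mb (R : ℕ) : ℕ := 82 * R / 100 + 147

namespace GGrowAAux

theorem nw_cast (s : List Gen) : ((nw s : ℕ) : ℝ) = wgt 100 82 67 s := by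
  induction s with
  | nil => simp [nw]
  | cons g s ih =>
    rw [wgt_cons, ← ih]
    have : nw (g :: s) = nwl g + nw s := by simp [nw]
    rw [this]
    push_cast
    congr 1
    cases g <;> simp [nwl, wl]

theorem len_le (zs : List V3) : 67 * (zs.length : ℝ) ≤ wgt 100 82 67 (P1 zs) := by
  induction zs with
  | nil => simp [P1]
  | cons z zs ih =>
    rw [wgt_P1_cons, List.length_cons]
    push_cast
    have : (67 : ℝ) ≤ w3 100 82 67 z := by cases z <;> simp [w3] <;> norm_num
    linarith

/-- the lists of length at most `n` -/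
def L : ℕ → Finset (List V3)
  | 0 => {[]}
  | n + 1 => insert [] ((({V3.b, V3.c, V3.d} : Finset V3) ×ˢ L n).image fun q => q.1 :: q.2)

theorem mem_L (zs : List V3) (n : ℕ) (h : zs.length ≤ n) : zs ∈ L n := by
  induction n generalizing zs with
  | zero =>
    have : zs = [] := List.length_eq_zero_iff.1 (by omega)
    simp [this, L]
  | succ n ih =>
    cases zs with
    | nil => simp [L]
    | cons z zs =>
      have h2 := ih zs (by simpa using h)
      rw [L, Finset.mem_insert]
      right
      rw [Finset.mem_image]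
      refine ⟨(z, zs), ?_, rfl⟩
      rw [Finset.mem_product]
      exact ⟨by cases z <;> simp, h2⟩

theorem card_L (n : ℕ) : (L n).card + 1 ≤ 2 * 3 ^ n := by
  induction n with
  | zero => simp [L]
  | succ n ih =>
    have h1 : (L (n + 1)).card ≤
        ((({V3.b, V3.c, V3.d} : Finset V3) ×ˢ L n).image fun q => q.1 :: q.2).card + 1 :=
      Finset.card_insert_le _ _
    have h2 : ((({V3.b, V3.c, V3.d} : Finset V3) ×ˢ L n).image fun q => q.1 :: q.2).card ≤
        (({V3.b, V3.c, V3.d} : Finset V3) ×ˢ L n).card := Finset.card_image_le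
    rw [Finset.card_product] at h2
    have h3 : ({V3.b, V3.c, V3.d} : Finset V3).card ≤ 3 := Finset.card_le_three
    have h4 : ({V3.b, V3.c, V3.d} : Finset V3).card * (L n).card ≤ 3 * (L n).card :=
      Nat.mul_le_mul_right _ h3
    rw [pow_succ]
    omega

open Classical in
/-- the elements with normal forms of length at most `R` -/
noncomputable def T (R : ℕ) : Finset G :=
  ((Finset.univ : Finset Bool) ×ˢ ((Finset.univ : Finset Bool) ×ˢ L R)).image
    fun q => elt (oa q.1 ++ (P1 q.2.2 ++ oa q.2.1))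

theorem sub_T (R : ℕ) : EW R ⊆ (T R : Set G) := by
  classical
  rintro g ⟨s, hs, hR⟩
  obtain ⟨u, e, zs, h1, h2, -, -⟩ := normal_form (p := 100) (q := 82) (r := 67) (by norm_num)
    (by norm_num) (by norm_num) (by norm_num) (by norm_num) (by norm_num) s
  have h3 := len_le zs
  have h4 : ((nw s : ℕ) : ℝ) ≤ R := by exact_mod_cast hR
  rw [nw_cast] at h4
  have h5 : 67 * (zs.length : ℝ) ≤ R := h3.trans (h2.trans h4)
  have h6 : 67 * zs.length ≤ R := by exact_mod_cast h5
  have hg : g = elt (oa u ++ (P1 zs ++ oa e)) := by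
    apply Subtype.ext
    apply Equiv.ext
    intro w
    rw [hs w, elt_apply, h1 w]
  unfold T
  rw [Finset.mem_coe, Finset.mem_image]
  refine ⟨(u, e, zs), ?_, hg.symm⟩
  simp only [Finset.mem_product, Finset.mem_univ, true_and]
  exact mem_L zs R (by omega)

theorem card_T (R : ℕ) : (T R).card ≤ 8 * 3 ^ R := by
  classical
  have h1 : (T R).card ≤
      ((Finset.univ : Finset Bool) ×ˢ ((Finset.univ : Finset Bool) ×ˢ L R)).card := by
    unfold T
    exact Finset.card_image_le
  rw [Finset.card_product, Finset.card_product, Finset.card_univ, Fintype.card_bool] at h1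
  have h2 := card_L R
  omega

end GGrowAAux

theorem EW_finite (R : ℕ) : (EW R).Finite :=
  (Finset.finite_toSet _).subset (GGrowAAux.sub_T R)

theorem EW_exp (R : ℕ) : (EW R).ncard ≤ 12 * 3 ^ R := by
  have h1 : (EW R).ncard ≤ (GGrowAAux.T R : Set G).ncard :=
    Set.ncard_le_ncard (GGrowAAux.sub_T R) (Finset.finite_toSet _)
  rw [Set.ncard_coe_finset] at h1
  have h2 := GGrowAAux.card_T R
  omega

namespace GA2

theorem nw_wgt (s : List Gen) : (nw s : ℝ) = wgt 100 82 67 s := by
  induction s with
  | nil => simp [nw]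
  | cons g s ih =>
    rw [wgt_cons, ← ih]
    cases g <;> simp [nw, nwl, wl]

theorem step (R : ℕ) (s : List Gen) (hs : nw s ≤ R) :
    ∃ t : Bool → List Gen, (∀ x w, run (t x) w = run (sec x s) w) ∧
      nw (t false) + nw (t true) ≤ Mb R := by
  obtain ⟨t, ht, hw⟩ := contract (X := 100) (Y := 82) (V := 67) (by norm_num) (by norm_num)
    (by norm_num) s
  refine ⟨t, ht, ?_⟩
  rw [← nw_wgt, ← nw_wgt] at hw
  have h1 : wgt 82 67 (2 * 100 - 82 - 67) s ≤ wgt ((82 / 100) * 100) ((82 / 100) * 82) ((82 / 100) * 67) s :=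
    wgt_mono (by norm_num) (by norm_num) (by norm_num) s
  rw [wgt_smul, ← nw_wgt] at h1
  have h2 : (nw s : ℝ) ≤ R := by exact_mod_cast hs
  have h5 := hw.trans (add_le_add_left h1 _)
  have h3 : ((nw (t false) + nw (t true) : ℕ) : ℝ) * 100 ≤ ((82 * R + 14700 : ℕ) : ℝ) := by
    push_cast
    linarith
  have h4 : (nw (t false) + nw (t true)) * 100 ≤ 82 * R + 14700 := by exact_mod_cast h3
  unfold Mb
  omega

end GA2

open GA2 in
theorem EW_rec (R : ℕ) : (EW R).ncard ≤
    2 * ∑ i ∈ Finset.range (Mb R + 1), (EW i).ncard * (EW (Mb R - i)).ncard := by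
  classical
  let E : ℕ → Finset G := fun i => (EW_finite i).toFinset
  let T : Finset (Bool × G × G) := Finset.univ ×ˢ
    (Finset.range (Mb R + 1)).biUnion fun i => E i ×ˢ E (Mb R - i)
  have hcard : ∀ i, (E i).card = (EW i).ncard := fun i =>
    (Set.ncard_eq_toFinset_card _ (EW_finite i)).symm
  have key : ∀ g : G, ∃ f : Bool × G × G, g ∈ EW R → f ∈ T ∧
      (∀ w, (g : Equiv.Perm (List Bool)) (false :: w) = f.1 :: (f.2.1 : Equiv.Perm (List Bool)) w) ∧
      (∀ w, (g : Equiv.Perm (List Bool)) (true :: w) = (!f.1) :: (f.2.2 : Equiv.Perm (List Bool)) w) := by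
    intro g
    by_cases hg : g ∈ EW R
    · obtain ⟨s, hs, hR⟩ := hg
      obtain ⟨t, ht, hw⟩ := step R s hR
      refine ⟨(par s, elt (t false), elt (t true)), fun _ => ⟨?_, ?_, ?_⟩⟩
      · simp only [T, E, Finset.mem_product, Finset.mem_univ, Finset.mem_biUnion, Finset.mem_range,
          Set.Finite.mem_toFinset, true_and]
        exact ⟨nw (t false), by omega, ⟨t false, fun w => elt_apply _ w, le_rfl⟩,
          ⟨t true, fun w => elt_apply _ w, by omega⟩⟩
      · intro w
        rw [hs, run_cons_word, elt_apply, ht]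
        simp
      · intro w
        rw [hs, run_cons_word, elt_apply, ht]
        simp
    · exact ⟨(false, 1, 1), fun h => absurd h hg⟩
  choose f hf using key
  have hinj : Set.InjOn f (EW R) := by
    intro g hg g' hg' h
    have h1 := hf g hg
    have h2 := hf g' hg'
    rw [h] at h1
    apply Subtype.ext
    apply Equiv.ext
    intro w
    cases w with
    | nil =>
      have e1 := length_apply _ g.2 []
      have e2 := length_apply _ g'.2 []
      rw [List.length_nil, List.length_eq_zero_iff] at e1 e2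
      rw [e1, e2]
    | cons x w =>
      cases x
      · rw [h1.2.1, h2.2.1]
      · rw [h1.2.2, h2.2.2]
  calc (EW R).ncard = (E R).card := (hcard R).symm
    _ ≤ T.card := Finset.card_le_card_of_injOn f
        (fun g hg => (hf g (by simpa [E] using hg)).1)
        (fun g hg g' hg' h => hinj (by simpa [E] using hg) (by simpa [E] using hg') h)
    _ = 2 * ((Finset.range (Mb R + 1)).biUnion fun i => E i ×ˢ E (Mb R - i)).card := by
        simp only [T, Finset.card_product]
        simp
    _ ≤ 2 * ∑ i ∈ Finset.range (Mb R + 1), (E i ×ˢ E (Mb R - i)).card :=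
        Nat.mul_le_mul_left _ Finset.card_biUnion_le
    _ = 2 * ∑ i ∈ Finset.range (Mb R + 1), (EW i).ncard * (EW (Mb R - i)).ncard := by
        simp only [Finset.card_product, hcard]

end RzT
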