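import Mathlib

/-!
Module GGrowB. The recursion gives subexponential growth (pure calculus).

Proof. `P ρ := ∃ K > 0, ∀ R, γ R ≤ K * ρ ^ R` (ρ real). `P 3` by `h0`. Step: `P ρ`, `ρ > 1` imply
`P (ρ ^ (0.9 : ℝ))`: `γ R ≤ 2 (M + 1) K² ρ^M` with `M = 82*R/100 + 147 ≤ 0.82 R + 147`, and
`(M + 1) ρ^(0.82 R + 147) ≤ K' ρ^(0.9 R)` because `(0.82 R + 148) ρ^(-0.08 R)` is bounded (linear times
exponential decay). Iterating: `P (3 ^ (0.9^j))` for all `j`, and `3 ^ (0.9^j) → 1`, so it is `≤ θ` for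
some `j`; `P` is monotone in `ρ ≥ 1`.
-/

set_option autoImplicit false

namespace RzT

theorem subexp_step (γ : ℕ → ℕ)
    (h1 : ∀ R, γ R ≤ 2 * ∑ i ∈ Finset.range (82 * R / 100 + 147 + 1),
      γ i * γ (82 * R / 100 + 147 - i))
    (ρ : ℝ) (hρ : 1 < ρ) (h : ∃ K : ℝ, 0 < K ∧ ∀ R : ℕ, (γ R : ℝ) ≤ K * ρ ^ R) :
    ∃ K : ℝ, 0 < K ∧ ∀ R : ℕ, (γ R : ℝ) ≤ K * (ρ ^ ((9 : ℝ) / 10)) ^ R := by
  obtain ⟨K, hK, hb⟩ := h
  have hρ0 : 0 < ρ := by linarith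
  obtain ⟨c, hc⟩ : ∃ c : ℝ, c = (8 / 100) * Real.log ρ := ⟨_, rfl⟩
  have hc0 : 0 < c := by
    rw [hc]
    exact mul_pos (by norm_num) (Real.log_pos hρ)
  refine ⟨2 * K ^ 2 * ρ ^ 147 * (148 + (82 / 100) / c), by positivity, ?_⟩
  intro R
  have h1' := h1 R
  obtain ⟨M, hM⟩ : ∃ M, M = 82 * R / 100 + 147 := ⟨_, rfl⟩
  rw [← hM] at h1'
  have hsum : (γ R : ℝ) ≤ 2 * (((M + 1 : ℕ) : ℝ) * (K ^ 2 * ρ ^ M)) := by
    have h2 : ((γ R : ℕ) : ℝ) ≤ ((2 * ∑ i ∈ Finset.range (M + 1), γ i * γ (M - i) : ℕ) : ℝ) := by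
      exact_mod_cast h1'
    refine h2.trans ?_
    rw [Nat.cast_mul, Nat.cast_sum, Nat.cast_ofNat]
    apply mul_le_mul_of_nonneg_left _ (by norm_num)
    calc ∑ i ∈ Finset.range (M + 1), ((γ i * γ (M - i) : ℕ) : ℝ)
        ≤ ∑ _i ∈ Finset.range (M + 1), K ^ 2 * ρ ^ M := by
          apply Finset.sum_le_sum
          intro i hi
          rw [Finset.mem_range] at hi
          rw [Nat.cast_mul]
          calc (γ i : ℝ) * (γ (M - i) : ℝ) ≤ (K * ρ ^ i) * (K * ρ ^ (M - i)) :=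
                mul_le_mul (hb i) (hb (M - i)) (Nat.cast_nonneg _) (by positivity)
            _ = K ^ 2 * (ρ ^ i * ρ ^ (M - i)) := by ring
            _ = K ^ 2 * ρ ^ M := by
                rw [← pow_add]
                congr 2
                omega
      _ = ((M + 1 : ℕ) : ℝ) * (K ^ 2 * ρ ^ M) := by
          rw [Finset.sum_const, Finset.card_range, nsmul_eq_mul]
  have hMn : 100 * M ≤ 82 * R + 14700 := by omega
  have hMr : (M : ℝ) ≤ 82 / 100 * R + 147 := by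
    have h3 : (100 : ℝ) * M ≤ 82 * R + 14700 := by exact_mod_cast hMn
    linarith
  obtain ⟨A, hA⟩ : ∃ A : ℝ, A = ρ ^ ((82 : ℝ) / 100 * R) := ⟨_, rfl⟩
  have hA0 : 0 < A := by
    rw [hA]
    exact Real.rpow_pos_of_pos hρ0 _
  have hρM : ρ ^ M ≤ A * ρ ^ 147 := by
    rw [hA, ← Real.rpow_natCast ρ M, ← Real.rpow_natCast ρ 147, ← Real.rpow_add hρ0]
    apply Real.rpow_le_rpow_of_exponent_le hρ.le
    push_cast
    exact hMr
  have hpow : (ρ ^ ((9 : ℝ) / 10)) ^ R = A * Real.exp (c * R) := by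
    have h4 : Real.exp (c * R) = ρ ^ ((8 : ℝ) / 100 * R) := by
      rw [Real.rpow_def_of_pos hρ0, hc]
      congr 1
      ring
    rw [h4, hA, ← Real.rpow_add hρ0, ← Real.rpow_natCast, ← Real.rpow_mul hρ0.le]
    congr 1
    ring
  have hexp : 1 + c * R ≤ Real.exp (c * R) := by
    have := Real.add_one_le_exp (c * (R : ℝ))
    linarith
  have hlin : ((M + 1 : ℕ) : ℝ) ≤ (148 + (82 / 100) / c) * Real.exp (c * R) := by
    have hR0 : (0 : ℝ) ≤ R := Nat.cast_nonneg R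
    have h5 : (82 : ℝ) / 100 * R = (82 / 100) / c * (c * R) := by
      field_simp
    have h6 : 0 ≤ (82 : ℝ) / 100 / c := by positivity
    have h7 : 0 ≤ c * (R : ℝ) := by positivity
    calc ((M + 1 : ℕ) : ℝ) ≤ 82 / 100 * R + 148 := by
          push_cast
          linarith
      _ ≤ (148 + (82 / 100) / c) * (1 + c * R) := by
          rw [h5]
          nlinarith
      _ ≤ _ := mul_le_mul_of_nonneg_left hexp (by positivity)
  calc (γ R : ℝ) ≤ 2 * (((M + 1 : ℕ) : ℝ) * (K ^ 2 * ρ ^ M)) := hsum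
    _ ≤ 2 * (((148 + (82 / 100) / c) * Real.exp (c * R)) * (K ^ 2 * (A * ρ ^ 147))) := by
        apply mul_le_mul_of_nonneg_left _ (by norm_num)
        apply mul_le_mul hlin _ (by positivity) (by positivity)
        exact mul_le_mul_of_nonneg_left hρM (by positivity)
    _ = 2 * K ^ 2 * ρ ^ 147 * (148 + 82 / 100 / c) * (ρ ^ ((9 : ℝ) / 10)) ^ R := by
        rw [hpow]
        ring

theorem subexp_of_rec (γ : ℕ → ℕ) (h0 : ∀ R, γ R ≤ 12 * 3 ^ R)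
    (h1 : ∀ R, γ R ≤ 2 * ∑ i ∈ Finset.range (82 * R / 100 + 147 + 1),
      γ i * γ (82 * R / 100 + 147 - i))
    (θ : ℝ) (hθ : 1 < θ) : ∃ K : ℝ, 0 < K ∧ ∀ R : ℕ, (γ R : ℝ) ≤ K * θ ^ R := by
  have hiter : ∀ j : ℕ, ∃ K : ℝ, 0 < K ∧ ∀ R : ℕ,
      (γ R : ℝ) ≤ K * ((3 : ℝ) ^ (((9 : ℝ) / 10) ^ j)) ^ R := by
    intro j
    induction j with
    | zero =>
      refine ⟨12, by norm_num, ?_⟩
      intro R
      rw [pow_zero, Real.rpow_one]
      exact_mod_cast h0 R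
    | succ j ih =>
      have h2 := subexp_step γ h1 ((3 : ℝ) ^ (((9 : ℝ) / 10) ^ j))
        (Real.one_lt_rpow (by norm_num) (by positivity)) ih
      rw [← Real.rpow_mul (by norm_num : (0 : ℝ) ≤ 3), ← pow_succ] at h2
      exact h2
  have hlθ : 0 < Real.log θ := Real.log_pos hθ
  have hl3 : 0 < Real.log 3 := Real.log_pos (by norm_num)
  obtain ⟨j, hj⟩ := exists_pow_lt_of_lt_one (div_pos hlθ hl3)
    (by norm_num : ((9 : ℝ) / 10) < 1)
  obtain ⟨K, hK, hb⟩ := hiter j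
  refine ⟨K, hK, ?_⟩
  intro R
  refine (hb R).trans ?_
  apply mul_le_mul_of_nonneg_left _ hK.le
  apply pow_le_pow_left₀ (Real.rpow_nonneg (by norm_num) _)
  rw [Real.rpow_def_of_pos (by norm_num : (0 : ℝ) < 3), ← Real.exp_log (by linarith : 0 < θ)]
  apply Real.exp_le_exp.2
  have h3 := (lt_div_iff₀ hl3).1 hj
  linarith

end RzT
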