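import Pool.Agent.Lib.RzT.Defs
import Pool.Agent.Lib.Pb99418.Upper

/-!
Module GInf. The Grigorchuk group is infinite.

Proof. `exists_lastFlip k` gives `z k : G` acting on the words of length `k + 3` by changing the last
letter (`IsLastFlip`). The elements of `G` commute with taking prefixes of a given length, so for `k < l` the
element `z l` fixes the words of length `k + 3` and `z k` does not.
-/

set_option autoImplicit false

namespace RzT

open Pool.Agent.Lib.Pb99418

theorem act_take (g : Gen) (w : List Bool) (n : ℕ) : act g (w.take n) = (act g w).take n := by
  induction w generalizing g n with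
  | nil => simp [act_nil]
  | cons x w ih =>
    cases n with
    | zero => simp [act_nil]
    | succ n => cases g <;> cases x <;> simp [act, ih]

theorem G_take (g : Equiv.Perm (List Bool)) (hg : g ∈ G) (w : List Bool) (n : ℕ) :
    g (w.take n) = (g w).take n := by
  induction hg using Subgroup.closure_induction generalizing w n with
  | mem x hx =>
    obtain ⟨s, rfl⟩ := hx
    exact act_take s w n
  | one => rfl
  | mul x y _ _ hx hy => rw [Equiv.Perm.mul_apply, Equiv.Perm.mul_apply, hy, hx]
  | inv x _ hx =>
    have h := hx (x⁻¹ w) n
    rw [← Equiv.Perm.mul_apply, mul_inv_cancel, Equiv.Perm.one_apply] at h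
    rw [← h, ← Equiv.Perm.mul_apply, inv_mul_cancel, Equiv.Perm.one_apply]

theorem flipLast_snoc (u : List Bool) (x : Bool) : flipLast (u ++ [x]) = u ++ [!x] := by
  induction u with
  | nil => rfl
  | cons y u ih =>
    cases u with
    | nil => rfl
    | cons z u =>
      have h1 : flipLast (y :: z :: (u ++ [x])) = y :: flipLast (z :: (u ++ [x])) := rfl
      have h2 : flipLast (z :: (u ++ [x])) = z :: (u ++ [!x]) := ih
      show flipLast (y :: z :: (u ++ [x])) = y :: z :: (u ++ [!x])
      rw [h1, h2]

theorem flips_ne {k l : ℕ} (hkl : k < l) {g h : G} (hg : IsLastFlip (k + 3) g)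
    (hh : IsLastFlip (l + 3) h) : g ≠ h := by
  rintro rfl
  have h1 := G_take (g : Equiv.Perm (List Bool)) g.2
    (List.replicate (l + 2) false ++ [false]) (k + 3)
  have e1 : (List.replicate (l + 2) false ++ [false]).take (k + 3) = List.replicate (k + 3) false := by
    rw [List.take_append_of_le_length (by rw [List.length_replicate]; omega), List.take_replicate,
      show min (k + 3) (l + 2) = k + 3 by omega]
  have e2 : (List.replicate (l + 2) false ++ [!false]).take (k + 3) = List.replicate (k + 3) false := by
    rw [List.take_append_of_le_length (by rw [List.length_replicate]; omega), List.take_replicate,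
      show min (k + 3) (l + 2) = k + 3 by omega]
  have e3 : (g : Equiv.Perm (List Bool)) (List.replicate (l + 2) false ++ [false]) =
      List.replicate (l + 2) false ++ [!false] := by
    rw [hh (List.replicate (l + 2) false ++ [false]) (by simp), flipLast_snoc]
  have e4 : (g : Equiv.Perm (List Bool)) (List.replicate (k + 3) false) =
      List.replicate (k + 2) false ++ [!false] := by
    rw [hg (List.replicate (k + 3) false) (by simp), List.replicate_succ', flipLast_snoc]
  rw [e1, e3, e2, e4, show List.replicate (k + 3) false = List.replicate (k + 2) false ++ [false] from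
    List.replicate_succ'] at h1
  have h2 := List.append_cancel_left h1
  simp at h2

theorem grig_infinite : Infinite G := by
  choose z hz using exists_lastFlip
  refine Infinite.of_injective z ?_
  intro k l hkl
  by_contra hne
  rcases Nat.lt_or_gt_of_ne hne with h | h
  · exact flips_ne h (hz k) (hz l) hkl
  · exact flips_ne h (hz l) (hz k) hkl.symm

end RzT
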