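import Pool.Agent.Lib.RzT.Defs
import Pool.Agent.Lib.Pb99418A.Contract
import Pool.Agent.Lib.Pb99418.Upper

/-!
The Grigorchuk group is periodic.
-/

set_option autoImplicit false

namespace RzT

open Pool.Agent.Lib.Pb99418 Pool.Agent.Lib.Pb99418A

/-- The element of the word has finite order. -/
def FO (s : List Gen) : Prop := IsOfFinOrder (elt s)

theorem elt_app (s t : List Gen) : elt (s ++ t) = elt s * elt t := by
  simp [elt]

theorem elt_ext {s t : List Gen} (h : ∀ w, run s w = run t w) : elt s = elt t := by
  apply Subtype.ext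
  ext1 w
  rw [elt_apply, elt_apply, h]

theorem FO.congr {s t : List Gen} (h : ∀ w, run s w = run t w) (ht : FO t) : FO s := by
  rw [FO, elt_ext h]
  exact ht

theorem FO.conj {s t : List Gen} (h : FO (s ++ t)) : FO (t ++ s) := by
  rw [FO, elt_app] at h ⊢
  have h1 : elt t * elt s = MulAut.conj (elt t) (elt s * elt t) := by
    simp [MulAut.conj_apply, mul_assoc]
  rw [h1]
  exact (MulAut.conj (elt t)).toMonoidHom.isOfFinOrder h

theorem FO_nil : FO [] := by
  have : elt [] = 1 := rfl
  rw [FO, this]
  exact IsOfFinOrder.one

theorem FO_single (g : Gen) : FO [g] := by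
  rw [FO, isOfFinOrder_iff_pow_eq_one]
  refine ⟨2, by norm_num, ?_⟩
  rw [pow_two, ← elt_app]
  have : elt ([g] ++ [g]) = elt [] := elt_ext fun w => by
    show act g (act g w) = w
    exact act_act g w
  rw [this]
  rfl

theorem pow_apply_cons {s : List Gen} (hp : par s = false) (x : Bool) (k : ℕ) (w : List Bool) :
    ((elt s ^ k : G) : Equiv.Perm (List Bool)) (x :: w) =
      x :: ((elt (sec x s) ^ k : G) : Equiv.Perm (List Bool)) w := by
  induction k generalizing w with
  | zero => rfl
  | succ k ih =>
    rw [pow_succ, pow_succ]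
    show ((elt s ^ k : G) : Equiv.Perm (List Bool)) ((elt s : Equiv.Perm (List Bool)) (x :: w)) = _
    rw [elt_apply, run_cons_word, hp, Bool.xor_false, ih]
    show _ = x :: ((elt (sec x s) ^ k : G) : Equiv.Perm (List Bool))
      ((elt (sec x s) : Equiv.Perm (List Bool)) w)
    rw [elt_apply]

theorem pow_apply_nil (g : G) : (g : Equiv.Perm (List Bool)) [] = [] := by
  have h := length_apply (g : Equiv.Perm (List Bool)) g.2 []
  exact List.eq_nil_of_length_eq_zero (by simpa using h)

theorem FO_sec {s : List Gen} (hp : par s = false) (h0 : FO (sec false s)) (h1 : FO (sec true s)) :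
    FO s := by
  rw [FO, isOfFinOrder_iff_pow_eq_one] at h0 h1 ⊢
  obtain ⟨k, hk, hk1⟩ := h0
  obtain ⟨l, hl, hl1⟩ := h1
  refine ⟨k * l, Nat.mul_pos hk hl, ?_⟩
  apply Subtype.ext
  ext1 w
  cases w with
  | nil => rw [pow_apply_nil]; rfl
  | cons x w =>
    rw [pow_apply_cons hp]
    cases x
    · rw [pow_mul, hk1, one_pow]; rfl
    · rw [mul_comm k l, pow_mul, hl1, one_pow]; rfl

theorem FO_sq {s : List Gen} (hp : par s = true) (h : FO (sec true s ++ sec false s)) : FO s := by
  have h2 : FO (s ++ s) := by
    apply FO_sec
    · rw [par_append, hp]; rfl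
    · rw [sec_append, hp]; exact h
    · rw [sec_append, hp]; exact h.conj
  rw [FO, elt_app, ← pow_two] at h2
  rw [FO, isOfFinOrder_iff_pow_eq_one] at *
  obtain ⟨k, hk, hk1⟩ := h2
  exact ⟨2 * k, by omega, by rw [pow_mul]; exact hk1⟩

/-- The number of letters different from `a`. -/
def nu (s : List Gen) : ℕ := s.countP fun g => g ≠ Gen.a

theorem nu_append (s t : List Gen) : nu (s ++ t) = nu s + nu t := by
  simp [nu]

theorem nu_cons_i (z : V3) (s : List Gen) : nu (z.i :: s) = nu s + 1 := by
  cases z <;> simp [nu, V3.i]

theorem nu_cons_a (s : List Gen) : nu (Gen.a :: s) = nu s := by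
  simp [nu]

theorem nu_nil : nu [] = 0 := rfl

theorem nu_P1 (zs : List V3) : nu (P1 zs) = zs.length := by
  induction zs with
  | nil => rfl
  | cons z zs ih => rw [P1, nu_cons_i, nu_cons_a, ih]; simp

theorem nu_oa (u : Bool) : nu (oa u) = 0 := by cases u <;> rfl

theorem nu_ol (L : Option V3) : nu (ol L) ≤ 1 := by
  cases L with
  | none => simp [ol, nu_nil]
  | some v => rw [ol, nu_cons_i, nu_nil]

theorem wgt_one (s : List Gen) : wgt 1 1 1 s = nu s := by
  induction s with
  | nil => simp [nu_nil]
  | cons g s ih =>
    rw [wgt_cons, ih]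
    cases g <;> simp [wl, nu, add_comm]

theorem nform (s : List Gen) : ∃ (u e : Bool) (zs : List V3),
    (∀ w, run s w = run (oa u ++ (P1 zs ++ oa e)) w) ∧ zs.length ≤ nu s ∧
      u.toNat + 2 * zs.length ≤ s.length + e.toNat := by
  obtain ⟨u, e, zs, h1, h2, -, h4⟩ := normal_form (p := 1) (q := 1) (r := 1) (by norm_num)
    (by norm_num) (by norm_num) (by norm_num) (by norm_num) (by norm_num) s
  refine ⟨u, e, zs, h1, ?_, h4⟩
  rw [wgt_one, wgt_one, nu_P1] at h2
  exact_mod_cast h2

theorem FO_A {n : ℕ} (IH : ∀ s, nu s < n → FO s) (zs : List V3) (hz : zs.length ≤ n) :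
    FO (P1 zs ++ [Gen.a]) := by
  rcases List.eq_nil_or_concat zs with h | ⟨zs', z, h⟩
  · subst h; exact FO_single _
  · subst h
    have h1 : FO (P1 zs' ++ [z.i]) := by
      cases zs' with
      | nil => exact FO_single _
      | cons y zs'' =>
        apply FO.conj
        have h2 : ∀ w, run ([z.i] ++ P1 (y :: zs'')) w =
            run (ol (mulO (some z) y) ++ (Gen.a :: P1 zs'')) w := by
          intro w
          exact run_ol (some z) y (Gen.a :: P1 zs'') w
        apply FO.congr h2
        apply IH
        have h3 := nu_ol (mulO (some z) y)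
        rw [nu_append, nu_cons_a, nu_P1]
        simp at hz
        omega
    refine FO.congr (fun w => ?_) h1
    rw [List.concat_eq_append, P1_append, List.append_assoc,
      run_append (P1 zs') (P1 [z] ++ [Gen.a]), run_append (P1 zs') [z.i]]
    congr 1
    show run [z.i] (act Gen.a (act Gen.a w)) = _
    rw [act_act]

theorem FO_N {n : ℕ} (IH : ∀ s, nu s < n → FO s) (s : List Gen) (h1 : nu s ≤ n)
    (h2 : s.length + 1 ≤ 2 * n) : FO s := by
  obtain ⟨u, e, zs, hr, hz, hl⟩ := nform s
  refine FO.congr hr ?_
  by_cases hlt : zs.length < n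
  · apply IH
    rw [nu_append, nu_append, nu_oa, nu_oa, nu_P1]
    omega
  · have hz' : zs.length = n := by omega
    have he : e = true ∧ u = false := by
      cases u <;> cases e <;> simp_all <;> omega
    rw [he.1, he.2]
    exact FO_A IH zs (by omega)

theorem FO_M {n : ℕ} (IH : ∀ s, nu s < n → FO s)
    (hP : ∀ zs : List V3, zs.length = n → FO (P1 zs)) (s : List Gen) (h1 : nu s ≤ n) : FO s := by
  obtain ⟨u, e, zs, hr, hz, hl⟩ := nform s
  refine FO.congr hr ?_
  by_cases hlt : zs.length < n
  · apply IH
    rw [nu_append, nu_append, nu_oa, nu_oa, nu_P1]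
    omega
  · have hz' : zs.length = n := by omega
    cases u <;> cases e
    · simpa [oa] using hP zs hz'
    · exact FO_A IH zs (by omega)
    · have := FO_A IH zs (by omega)
      have h2 := this.conj
      simpa [oa] using h2
    · have h3 : FO ((P1 zs ++ [Gen.a]) ++ [Gen.a]) := by
        refine FO.congr (fun w => ?_) (hP zs hz')
        rw [run_append, run_append]
        congr 1
        exact act_act _ _
      exact h3.conj

/-- The letters of the next word. -/
def sT : Bool → List V3 → List V3
  | _, [] => []
  | true, z :: zs => z.tl :: sT false zs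
  | false, _ :: zs => sT true zs

theorem par_P1 (zs : List V3) : par (P1 zs) = decide (zs.length % 2 = 1) := by
  induction zs with
  | nil => rfl
  | cons z zs ih =>
    have h1 : par (P1 (z :: zs)) = !par (P1 zs) := by
      cases z <;> simp [P1, par_cons, pg, V3.i]
    rw [h1, ih, List.length_cons]
    rcases Nat.mod_two_eq_zero_or_one zs.length with h | h
    · have : (zs.length + 1) % 2 = 1 := by omega
      simp [h, this]
    · have : (zs.length + 1) % 2 = 0 := by omega
      simp [h, this]

theorem nu_om (z : V3) : nu z.om = 0 := by cases z <;> rfl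

theorem nu_sc (zs : List V3) : nu (sc true zs) = (zs.length + 1) / 2 ∧
    nu (sc false zs) = zs.length / 2 := by
  induction zs with
  | nil => simp [sc, nu_nil]
  | cons z zs ih =>
    simp only [sc, nu_cons_i, nu_append, nu_om, ih.1, ih.2, List.length_cons]
    constructor <;> omega

theorem len_sc (zs : List V3) : (sc true zs).length + (sc false zs).length + zs.count V3.d =
    2 * zs.length := by
  induction zs with
  | nil => simp [sc]
  | cons z zs ih =>
    cases z <;> simp [sc, V3.om] <;> omega

theorem sT_len (zs : List V3) : (sT true zs).length = (zs.length + 1) / 2 ∧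
    (sT false zs).length = zs.length / 2 := by
  induction zs with
  | nil => simp [sT]
  | cons z zs ih =>
    refine ⟨?_, ?_⟩
    · show (sT false zs).length + 1 = _
      rw [ih.2, List.length_cons]
      omega
    · show (sT true zs).length = _
      rw [ih.1, List.length_cons]

theorem sc_eq : ∀ (n : ℕ) (zs : List V3), zs.length = n → V3.d ∉ zs → ∀ R : List Gen,
    (n % 2 = 0 → sc true zs ++ R = P1 (sT true zs) ++ R) ∧
    (n % 2 = 1 → sc true zs ++ (Gen.a :: R) = P1 (sT true zs) ++ R) := by
  intro n
  induction n using Nat.strong_induction_on with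
  | _ n ih =>
    intro zs hn hd R
    match zs, hn, hd with
    | [], hn, hd =>
      simp only [List.length_nil] at hn
      subst hn
      exact ⟨fun _ => rfl, fun h => by omega⟩
    | [z], hn, hd =>
      simp only [List.length_cons, List.length_nil, Nat.zero_add] at hn
      subst hn
      exact ⟨fun h => by omega, fun _ => rfl⟩
    | z :: y :: zs, hn, hd =>
      simp only [List.length_cons] at hn
      have hy : y ≠ V3.d := by rintro rfl; exact hd (by simp)
      have hom : y.om = [Gen.a] := by cases y <;> simp_all [V3.om]
      have h2 := ih (n - 2) (by omega) zs (by omega) (by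
        intro h; exact hd (by simp [h])) R
      have h3 : (n - 2) % 2 = n % 2 := by omega
      rw [h3] at h2
      have e1 : sc true (z :: y :: zs) = z.tl.i :: Gen.a :: sc true zs := by
        simp [sc, hom]
      have e2 : P1 (sT true (z :: y :: zs)) = z.tl.i :: Gen.a :: P1 (sT true zs) := by
        simp [sT, P1]
      rw [e1, e2]
      constructor
      · intro h
        have := h2.1 h
        simp only [List.cons_append, this]
      · intro h
        have := h2.2 h
        simp only [List.cons_append, this]

theorem mem_sT (x : V3) (zs : List V3) (h : x ∈ zs) : x.tl ∈ sT true zs ∨ x.tl ∈ sT false zs := by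
  induction zs with
  | nil => simp at h
  | cons z zs ih =>
    rcases List.mem_cons.mp h with h | h
    · subst h; left; simp [sT]
    · rcases ih h with h1 | h1
      · right; simpa [sT] using h1
      · left; simp [sT, h1]

theorem sT_mem (b : Bool) (zs : List V3) (y : V3) (h : y ∈ sT b zs) : ∃ z ∈ zs, y = z.tl := by
  induction zs generalizing b with
  | nil => simp [sT] at h
  | cons z zs ih =>
    cases b
    · simp only [sT] at h
      obtain ⟨x, hx, hy⟩ := ih true h
      exact ⟨x, List.mem_cons_of_mem _ hx, hy⟩
    · simp only [sT] at h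
      rcases List.mem_cons.mp h with h | h
      · exact ⟨z, by simp, h⟩
      · obtain ⟨x, hx, hy⟩ := ih false h
        exact ⟨x, List.mem_cons_of_mem _ hx, hy⟩

/-- One step without the letter `d`. -/
theorem FO_step (zs : List V3) (hodd : zs.length % 2 = 1) (hd : V3.d ∉ zs)
    (h : FO (P1 (sT true zs ++ sT false zs))) : FO (P1 zs) := by
  apply FO_sq
  · rw [par_P1, hodd]; rfl
  · apply FO.conj
    rw [sec_P1, sec_P1, par_P1, hodd]
    cases zs with
    | nil => simp at hodd
    | cons z zs' =>
      have hz : z ≠ V3.d := by rintro rfl; exact hd (by simp)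
      have hom : z.om = [Gen.a] := by cases z <;> simp_all [V3.om]
      simp only [List.length_cons] at hodd
      have h1 := (sc_eq _ (z :: zs') rfl hd (sc true zs')).2 (by simpa using hodd)
      have h2 := (sc_eq _ zs' rfl (fun h => hd (by simp [h])) []).1 (by omega)
      simp only [List.append_nil] at h2
      have e1 : sc false (z :: zs') = Gen.a :: sc true zs' := by simp [sc, hom]
      have e2 : sT false (z :: zs') = sT true zs' := rfl
      rw [P1_append, e2, ← h2, ← h1, ← e1] at h
      simpa using h

theorem FO_odd {n : ℕ} (hn : n % 2 = 1) (IH : ∀ s, nu s < n → FO s) (zs : List V3)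
    (hz : zs.length = n) : FO (P1 zs) := by
  have hd : ∀ zs : List V3, zs.length = n → V3.d ∈ zs → FO (P1 zs) := by
    intro zs hz hd
    apply FO_sq
    · rw [par_P1, hz, hn]; rfl
    · rw [sec_P1, sec_P1, par_P1, hz, hn]
      have h1 := nu_sc zs
      have h2 := len_sc zs
      have h3 : 0 < zs.count V3.d := List.count_pos_iff.mpr hd
      apply FO_N IH
      · rw [nu_append]
        simp only [decide_true, Bool.xor_true, Bool.not_true, Bool.not_false]
        rw [h1.1, h1.2]
        omega
      · rw [List.length_append]
        simp only [decide_true, Bool.xor_true, Bool.not_true, Bool.not_false]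
        omega
  have hlen : ∀ zs : List V3, zs.length = n → (sT true zs ++ sT false zs).length = n := by
    intro zs hz
    have := sT_len zs
    rw [List.length_append, this.1, this.2]
    omega
  have hc : ∀ zs : List V3, zs.length = n → V3.c ∈ zs → FO (P1 zs) := by
    intro zs hz hc
    by_cases h : V3.d ∈ zs
    · exact hd zs hz h
    · apply FO_step zs (by rw [hz]; exact hn) h
      apply hd _ (hlen zs hz)
      rw [List.mem_append]
      exact mem_sT V3.c zs hc
  by_cases h : V3.d ∈ zs
  · exact hd zs hz h
  · apply FO_step zs (by rw [hz]; exact hn) h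
    by_cases h' : V3.c ∈ zs
    · exact hd _ (hlen zs hz) (by rw [List.mem_append]; exact mem_sT V3.c zs h')
    · apply hc _ (hlen zs hz)
      cases zs with
      | nil => simp at hz; omega
      | cons z zs' =>
        have hb : z = V3.b := by
          cases z
          · rfl
          · exact absurd (by simp) h'
          · exact absurd (by simp) h
        subst hb
        rw [List.mem_append]
        exact mem_sT V3.b _ (by simp)

theorem FO_even {n : ℕ} (hn : n % 2 = 0) (hn0 : 0 < n) (IH : ∀ s, nu s < n → FO s)
    (zs : List V3) (hz : zs.length = n) : FO (P1 zs) := by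
  have h1 := nu_sc zs
  have hp : par (P1 zs) = false := by rw [par_P1, hz, hn]; rfl
  have h2 : ∀ x, FO (sec x (P1 zs)) := by
    intro x
    rw [sec_P1, hp]
    apply IH
    cases x
    · simp only [Bool.xor_false]
      rw [h1.2]; omega
    · simp only [Bool.xor_false]
      rw [h1.1]; omega
  exact FO_sec hp (h2 false) (h2 true)

theorem FO_all (n : ℕ) : ∀ s : List Gen, nu s ≤ n → FO s := by
  induction n using Nat.strong_induction_on with
  | _ n ih =>
    have IH : ∀ s, nu s < n → FO s := fun s hs => ih (nu s) hs s le_rfl
    intro s hs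
    apply FO_M IH _ s hs
    intro zs hz
    rcases Nat.eq_zero_or_pos n with h0 | h0
    · subst h0
      have : zs = [] := List.length_eq_zero_iff.mp hz
      subst this
      exact FO_nil
    · rcases Nat.mod_two_eq_zero_or_one n with h | h
      · exact FO_even h h0 IH zs hz
      · exact FO_odd h IH zs hz

theorem grig_periodic (g : G) : ∃ k : ℕ, 0 < k ∧ g ^ k = 1 := by
  obtain ⟨s, hs⟩ := exists_word g
  have h : g = elt s := by
    apply Subtype.ext
    ext1 w
    rw [hs, elt_apply]
  rw [h, ← isOfFinOrder_iff_pow_eq_one]
  exact FO_all _ s le_rfl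

end RzT
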