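import Pool.Agent.Lib.RzT.Main

/-!
`F/[N,N]` for an arbitrary normal subgroup `N ≠ 1` of infinite index.
-/

set_option autoImplicit false

namespace RzT

section inj

variable {G H : Type} [Group G] [Group H]

theorem node_inj' (Ψ : G →* W H) (t : ℕ → G) (c : G) (y0 : H) (D : Set H) (hc : (Ψ c).h = 1)
    (hc1 : (Ψ c).f y0 ≠ 0)
    (hcD : ∀ y, (Ψ c).f y ≠ 0 → y * y0⁻¹ ∈ D ∧ (y * y0⁻¹)⁻¹ ∈ D)
    (hD : ∀ i j : ℕ, i < j → (pr (fun n => (Ψ (t n)).h) i)⁻¹ * pr (fun n => (Ψ (t n)).h) j ∉ D) :
    Function.Injective (node t c) := by
  set P := pr (fun n => (Ψ (t n)).h) with hP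
  have hD' : ∀ i j : ℕ, i ≠ j → (Ψ c).f ((P i)⁻¹ * (P j * y0)) = 0 := by
    intro i j hij
    by_contra hne
    have h1 := hcD _ hne
    have h2 : (P i)⁻¹ * (P j * y0) * y0⁻¹ = (P i)⁻¹ * P j := by
      rw [mul_assoc, mul_assoc, mul_inv_cancel, mul_one]
    rw [h2] at h1
    rcases lt_or_gt_of_ne hij with h | h
    · exact hD i j h h1.1
    · apply hD j i h
      have := h1.2
      rwa [mul_inv_rev, inv_inv] at this
  have hPinj : Function.Injective P := by
    intro i j hij
    by_contra hne
    have h1 := hD' i j hne
    rw [hij, inv_mul_cancel_left] at h1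
    exact hc1 h1
  have step : ∀ (b : Bool) (l : List Bool) (y : H), (Ψ (node t c (b :: l))).f y =
      (Ψ (node t c l)).f y + (Ψ (t l.length)).f ((P l.length)⁻¹ * y) +
        (if b then (Ψ c).f ((P (l.length + 1))⁻¹ * y) else 0) := by
    intro b l y
    have h1 : (Ψ (node t c l)).h = P l.length := node_h Ψ t c hc l
    have h2 : (Ψ (node t c l * t l.length)).h = P (l.length + 1) := by
      rw [map_mul, W.mul_h, h1, hP, pr]
    rw [node, map_mul, W.mul_f, h2, map_mul, W.mul_f, h1]
    cases b
    · simp [W.one_f]
    · simp
  have key : ∀ (l l' : List Bool), l.length = l'.length →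
      (∀ j < l.length, (Ψ (node t c l)).f (P (j + 1) * y0) =
        (Ψ (node t c l')).f (P (j + 1) * y0)) → l = l' := by
    intro l
    induction l with
    | nil =>
      intro l' hl _
      have : l'.length = 0 := by simpa using hl.symm
      exact (List.length_eq_zero_iff.mp this).symm
    | cons b l ih =>
      intro l' hl hf
      cases l' with
      | nil => simp at hl
      | cons b' l' =>
        have hl2 : l.length = l'.length := by simpa using hl
        have h1 : l = l' := by
          apply ih l' hl2
          intro j hj
          have h2 := hf j (by simp; omega)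
          rw [step, step, ← hl2] at h2
          have h3 : (Ψ c).f ((P (l.length + 1))⁻¹ * (P (j + 1) * y0)) = 0 :=
            hD' _ _ (by omega)
          simp only [h3, ite_self, add_zero] at h2
          exact add_right_cancel h2
        subst h1
        have h2 := hf l.length (by simp)
        rw [step, step] at h2
        have h3 := add_left_cancel h2
        rw [inv_mul_cancel_left] at h3
        cases b <;> cases b' <;> simp_all
  intro l l' hll
  have hlen : l.length = l'.length := by
    apply hPinj
    rw [hP, ← node_h Ψ t c hc l, ← node_h Ψ t c hc l', hll]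
  exact key l l' hlen (fun j _ => by rw [hll])

/-- products of a constant sequence -/
theorem pr_const (h : H) (n : ℕ) : pr (fun _ => h) n = h ^ n := by
  induction n with
  | zero => rw [pow_zero]; rfl
  | succ n ih => rw [pr, ih, pow_succ]

theorem node_const (t c : G) (l : List Bool) :
    node (fun _ => t) c l = (l.reverse.map fun b => t * (if b then c else 1)).prod := by
  induction l with
  | nil => rfl
  | cons b l ih => simp [node, ih, mul_assoc]

theorem free_of_inj (t c : G) (h : Function.Injective (node (fun _ => t) c)) :
    ∃ f : Fin 2 → G, Function.Injective ⇑(FreeSemigroup.lift f) := by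
  refine ⟨fun i => t * (if i = 1 then c else 1), ?_⟩
  intro v w hvw
  obtain ⟨a, l⟩ := v
  obtain ⟨b, m⟩ := w
  have key : ∀ (a : Fin 2) (l : List (Fin 2)),
      FreeSemigroup.lift (fun i : Fin 2 => t * (if i = 1 then c else 1)) ⟨a, l⟩ =
        node (fun _ => t) c (((a :: l).map fun i : Fin 2 => decide (i = 1)).reverse) := by
    intro a l
    change l.foldl (fun x y => x * (fun i : Fin 2 => t * (if i = 1 then c else 1)) y)
      ((fun i : Fin 2 => t * (if i = 1 then c else 1)) a) = _
    rw [foldl_mul, node_const, List.reverse_reverse, List.map_map, List.map_cons, List.prod_cons]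
    congr 1
    · simp
    · congr 1
      apply List.map_congr_left
      intro i _
      simp
  rw [key, key] at hvw
  have h1 := h hvw
  have h2 := List.reverse_injective h1
  have hinj : Function.Injective (fun i : Fin 2 => decide (i = 1)) := by
    intro i j hij
    fin_cases i <;> fin_cases j <;> simp_all
  have h3 := List.map_injective_iff.mpr hinj h2
  injection h3 with h4 h5
  rw [h4, h5]

end inj

variable {n : ℕ} (N : Subgroup (FreeGroup (Fin n))) [N.Normal]

theorem flow_finite (i0 : Fin n) (w : FreeGroup (Fin n)) :
    {y | (Phi N i0 w).f y ≠ 0}.Finite := by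
  classical
  induction w using FreeGroup.induction_on with
  | C1 => simp [W.one_f]
  | of i =>
    apply (Set.finite_singleton (1 : FreeGroup (Fin n) ⧸ N)).subset
    intro y hy
    by_contra hne
    apply hy
    have hne' : y ≠ 1 := hne
    by_cases h : i = i0 <;> simp [Phi, h, hne']
  | inv_of i ih =>
    apply (ih.image fun y => (Phi N i0 (FreeGroup.of i)).h⁻¹ * y).subset
    intro y hy
    refine ⟨(Phi N i0 (FreeGroup.of i)).h * y, ?_, by simp⟩
    intro h0
    apply hy
    rw [map_inv, W.inv_f, h0, neg_zero]
  | mul x y hx hy =>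
    apply (hx.union (hy.image fun z => (Phi N i0 x).h * z)).subset
    intro z hz
    by_cases h : (Phi N i0 x).f z = 0
    · right
      refine ⟨(Phi N i0 x).h⁻¹ * z, ?_, by simp⟩
      intro h0
      apply hz
      rw [map_mul, W.mul_f, h, h0, add_zero]
    · left
      exact h

end RzT
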