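import Pool.Agent.Lib.RzT.Defs

/-!
`F/[N,N]` is torsion-free for a normal subgroup `N` of a free group `F` (Higman).
-/

set_option autoImplicit false

namespace RzT

/-- In a free group a root of an element of the commutator subgroup lies in the commutator
subgroup. -/
theorem root_comm {K : Type} [Group K] [IsFreeGroup K] (g : K) (q : ℕ) (hq : 0 < q)
    (h : g ^ q ∈ commutator K) : g ∈ commutator K := by
  let X := IsFreeGroup.Generators K
  let e : K ≃* FreeGroup X := IsFreeGroup.toFreeGroup K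
  let e' : Abelianization K ≃* Abelianization (FreeGroup X) := e.abelianizationCongr
  let ψ : Additive (Abelianization K) ≃+ (X →₀ ℤ) :=
    (MulEquiv.toAdditive e').trans (FreeAbelianGroup.equivFinsupp X)
  have h1 : Abelianization.of (g ^ q) = 1 := (QuotientGroup.eq_one_iff _).mpr h
  have h2 : q • ψ (Additive.ofMul (Abelianization.of g)) = 0 := by
    rw [← map_nsmul, ← ofMul_pow, ← map_pow, h1, ofMul_one, map_zero]
  have h3 : ψ (Additive.ofMul (Abelianization.of g)) = 0 := by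
    rcases smul_eq_zero.mp h2 with h4 | h4
    · omega
    · exact h4
  have h5 : Additive.ofMul (Abelianization.of g) = 0 := by
    rw [← map_zero ψ] at h3
    exact ψ.injective h3
  have h6 : Abelianization.of g = 1 := ofMul_eq_zero.mp h5
  exact (QuotientGroup.eq_one_iff _).mp h6

theorem root_comm_sub {α : Type} (K : Subgroup (FreeGroup α)) (g : FreeGroup α) (hg : g ∈ K)
    (q : ℕ) (hq : 0 < q) (h : g ^ q ∈ ⁅K, K⁆) : g ∈ ⁅K, K⁆ := by
  rw [← Subgroup.map_subtype_commutator] at h ⊢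
  obtain ⟨x, hx, hxg⟩ := h
  have h1 : x = (⟨g, hg⟩ : K) ^ q := by
    ext
    simpa using hxg
  have h2 := root_comm (⟨g, hg⟩ : K) q hq (h1 ▸ hx)
  exact ⟨⟨g, hg⟩, h2, rfl⟩

theorem torsionfree {α : Type} (N : Subgroup (FreeGroup α)) [N.Normal] (g : FreeGroup α) (q : ℕ)
    (hq : 0 < q) (h : g ^ q ∈ ⁅N, N⁆) : g ∈ ⁅N, N⁆ := by
  let K : Subgroup (FreeGroup α) := N ⊔ Subgroup.zpowers g
  have hgK : g ∈ K := (le_sup_right : Subgroup.zpowers g ≤ K) (Subgroup.mem_zpowers g)
  have h1 : g ∈ ⁅K, K⁆ :=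
    root_comm_sub K g hgK q hq (Subgroup.commutator_mono le_sup_left le_sup_left h)
  have h2 : ⁅K, K⁆ ≤ N := by
    rw [Subgroup.commutator_le]
    have hK : ∀ a ∈ K, ∃ k : ℤ, (QuotientGroup.mk a : FreeGroup α ⧸ N) = (QuotientGroup.mk g) ^ k := by
      intro a ha
      obtain ⟨n, hn, z, ⟨k, hk⟩, hz⟩ := Subgroup.mem_sup_of_normal_left.mp ha
      refine ⟨k, ?_⟩
      rw [← hz, QuotientGroup.mk_mul, (QuotientGroup.eq_one_iff n).mpr hn, one_mul, ← hk]
      rfl
    intro a ha b hb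
    obtain ⟨k, hk⟩ := hK a ha
    obtain ⟨l, hl⟩ := hK b hb
    rw [← QuotientGroup.eq_one_iff]
    rw [commutatorElement_def, QuotientGroup.mk_mul, QuotientGroup.mk_mul, QuotientGroup.mk_mul,
      QuotientGroup.mk_inv, QuotientGroup.mk_inv, hk, hl]
    group
  exact root_comm_sub N g (h2 h1) q hq h

end RzT
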