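import Pool.Agent.Lib.RzT.Wr
import Pool.Agent.Lib.RzT.Tor
import Pool.Agent.Lib.RzT.Ext
import Pool.Agent.Lib.RzT.Amen

/-!
`F/[N,N]` for `F/N` infinite and periodic.
-/

set_option autoImplicit false

namespace RzT

theorem foldl_mul {G : Type} [Group G] {α : Type} (f : α → G) (l : List α) (g : G) :
    l.foldl (fun a b => a * f b) g = g * (l.map f).prod := by
  induction l generalizing g with
  | nil => simp
  | cons a l ih => rw [List.foldl_cons, ih, List.map_cons, List.prod_cons, mul_assoc]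

/-- commuting powers exclude free subsemigroups -/
theorem no_free {G : Type} [Group G] (f : Fin 2 → G) (m n : ℕ) (hm : 0 < m) (hn : 0 < n)
    (h : f 0 ^ m * f 1 ^ n = f 1 ^ n * f 0 ^ m) :
    ¬ Function.Injective ⇑(FreeSemigroup.lift f) := by
  intro hinj
  obtain ⟨m, rfl⟩ := Nat.exists_eq_succ_of_ne_zero hm.ne'
  obtain ⟨n, rfl⟩ := Nat.exists_eq_succ_of_ne_zero hn.ne'
  let w1 : FreeSemigroup (Fin 2) := ⟨0, List.replicate m 0 ++ List.replicate (n + 1) 1⟩
  let w2 : FreeSemigroup (Fin 2) := ⟨1, List.replicate n 1 ++ List.replicate (m + 1) 0⟩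
  have h1 : FreeSemigroup.lift f w1 = f 0 ^ (m + 1) * f 1 ^ (n + 1) := by
    change (List.replicate m (0 : Fin 2) ++ List.replicate (n + 1) 1).foldl (fun a b => a * f b)
      (f 0) = _
    rw [foldl_mul, List.map_append, List.prod_append, List.map_replicate, List.map_replicate,
      List.prod_replicate, List.prod_replicate, ← mul_assoc, ← pow_succ']
  have h2 : FreeSemigroup.lift f w2 = f 1 ^ (n + 1) * f 0 ^ (m + 1) := by
    change (List.replicate n (1 : Fin 2) ++ List.replicate (m + 1) 0).foldl (fun a b => a * f b)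
      (f 1) = _
    rw [foldl_mul, List.map_append, List.prod_append, List.map_replicate, List.map_replicate,
      List.prod_replicate, List.prod_replicate, ← mul_assoc, ← pow_succ']
  have h3 : w1 = w2 := hinj (by rw [h1, h2]; exact h)
  have h4 : (0 : Fin 2) = 1 := congrArg FreeSemigroup.head h3
  exact absurd h4 (by decide)

variable {n : ℕ} (N : Subgroup (FreeGroup (Fin n))) [N.Normal]

theorem mk_comm {a b : FreeGroup (Fin n)} (ha : a ∈ N) (hb : b ∈ N) :
    (QuotientGroup.mk a : FreeGroup (Fin n) ⧸ ⁅N, N⁆) * QuotientGroup.mk b =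
      QuotientGroup.mk b * QuotientGroup.mk a := by
  rw [← QuotientGroup.mk_mul, ← QuotientGroup.mk_mul, QuotientGroup.eq]
  have h := Subgroup.commutator_mem_commutator (inv_mem hb) (inv_mem ha)
  rw [commutatorElement_def, inv_inv, inv_inv] at h
  rw [mul_inv_rev, ← mul_assoc]
  exact h

open Classical in
/-- the flow through the edges with label `i0` -/
noncomputable def Phi (i0 : Fin n) : FreeGroup (Fin n) →* W (FreeGroup (Fin n) ⧸ N) :=
  FreeGroup.lift fun i => ⟨if i = i0 then Pi.single 1 1 else 0, QuotientGroup.mk (FreeGroup.of i)⟩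

theorem Phi_h (i0 : Fin n) (w : FreeGroup (Fin n)) : (Phi N i0 w).h = QuotientGroup.mk w := by
  have h : (W.top).comp (Phi N i0) = QuotientGroup.mk' N := by
    apply FreeGroup.ext_hom
    intro i
    simp [Phi, W.top_apply]
  exact DFunLike.congr_fun h w

theorem Phi_comm (i0 : Fin n) : ∀ w ∈ ⁅N, N⁆, Phi N i0 w = 1 := by
  have h : ⁅N, N⁆ ≤ (Phi N i0).ker := by
    rw [Subgroup.commutator_le]
    intro a ha b hb
    rw [MonoidHom.mem_ker, map_commutatorElement, commutatorElement_eq_one_iff_mul_comm]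
    apply W.comm_of_h
    · rw [Phi_h]; exact (QuotientGroup.eq_one_iff a).mpr ha
    · rw [Phi_h]; exact (QuotientGroup.eq_one_iff b).mpr hb
  exact fun w hw => h hw

/-- the induced map -/
noncomputable def Psi (i0 : Fin n) : FreeGroup (Fin n) ⧸ ⁅N, N⁆ →* W (FreeGroup (Fin n) ⧸ N) :=
  QuotientGroup.lift ⁅N, N⁆ (Phi N i0) (Phi_comm N i0)

theorem Psi_mk (i0 : Fin n) (w : FreeGroup (Fin n)) :
    Psi N i0 (QuotientGroup.mk w) = Phi N i0 w := rfl

theorem not_supramenable [Infinite (FreeGroup (Fin n) ⧸ N)]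
    (hper : ∀ w : FreeGroup (Fin n), ∃ k : ℕ, 0 < k ∧ w ^ k ∈ N) :
    ∃ A : Set (FreeGroup (Fin n) ⧸ ⁅N, N⁆), A.Nonempty ∧
      ¬ ∃ μ : Set (FreeGroup (Fin n) ⧸ ⁅N, N⁆) → ENNReal, μ A = 1 ∧ InvMeas μ := by
  classical
  have hn : 0 < n := by
    rcases Nat.eq_zero_or_pos n with h | h
    · subst h
      exfalso
      haveI : Finite (FreeGroup (Fin 0)) := inferInstance
      haveI : Finite (FreeGroup (Fin 0) ⧸ N) := inferInstance
      exact not_finite (FreeGroup (Fin 0) ⧸ N)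
    · exact h
  let i0 : Fin n := ⟨0, hn⟩
  obtain ⟨m, hm, hmN⟩ := hper (FreeGroup.of i0)
  let H := FreeGroup (Fin n) ⧸ N
  let x : H := QuotientGroup.mk (FreeGroup.of i0)
  let a : W H := Phi N i0 (FreeGroup.of i0)
  have ha : a = ⟨Pi.single 1 1, x⟩ := by
    simp [a, Phi, x]
  have hah : a.h = x := by rw [ha]
  obtain ⟨p1, p2, p3, p4⟩ := W.pow_spec (a := a)
    (by
      intro y
      rw [ha]
      by_cases hy : y = 1
      · subst hy; simp
      · simp [hy])
    (by rw [ha]; simp) (by intro y hy; rw [ha]; simp [hy]) m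
  have hxfin : IsOfFinOrder x := by
    rw [isOfFinOrder_iff_pow_eq_one]
    refine ⟨m, hm, ?_⟩
    exact (QuotientGroup.eq_one_iff _).mpr hmN
  have hDfin : (Subgroup.zpowers x : Set H).Finite := finite_zpowers.mpr hxfin
  obtain ⟨T, t, hT, hD⟩ := exists_ray (H := H)
    (Finset.univ.image fun i : Fin n => (QuotientGroup.mk (FreeGroup.of i) : H))
    (by
      have h1 : ((Finset.univ.image fun i : Fin n => (QuotientGroup.mk (FreeGroup.of i) : H)) :
          Set H) = (QuotientGroup.mk' N) '' (Set.range FreeGroup.of) := by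
        ext y
        simp
      rw [h1, ← MonoidHom.map_closure, FreeGroup.closure_range_of]
      exact Subgroup.map_top_of_surjective _ (QuotientGroup.mk'_surjective N))
    hDfin.toFinset
  let σ : H → FreeGroup (Fin n) ⧸ ⁅N, N⁆ := fun y => QuotientGroup.mk y.out
  have hσ : ∀ y, (Psi N i0 (σ y)).h = y := by
    intro y
    rw [Psi_mk, Phi_h]
    exact QuotientGroup.out_eq' y
  let c : FreeGroup (Fin n) ⧸ ⁅N, N⁆ := QuotientGroup.mk (FreeGroup.of i0 ^ m)
  have hc : Psi N i0 c = a ^ m := by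
    rw [Psi_mk, map_pow]
  have hpr : (fun k => (Psi N i0 (σ (t k))).h) = t := by
    funext k
    exact hσ _
  refine not_supra (T.image σ) (fun k => σ (t k)) (fun k => Finset.mem_image_of_mem _ (hT k)) c ?_
  apply node_inj (Psi N i0) _ c (Subgroup.zpowers x)
  · rw [Psi_mk, Phi_h]
    exact (QuotientGroup.eq_one_iff _).mpr hmN
  · rw [hc]; exact p3 hm
  · intro y hy
    rw [hc]
    apply p4
    rw [hah]
    exact hy
  · intro i j hij
    rw [hpr]
    have := hD i j hij
    rwa [Set.Finite.mem_toFinset] at this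

theorem main [Infinite (FreeGroup (Fin n) ⧸ N)]
    (hper : ∀ w : FreeGroup (Fin n), ∃ k : ℕ, 0 < k ∧ w ^ k ∈ N) :
    (∀ (g : FreeGroup (Fin n) ⧸ ⁅N, N⁆) (k : ℕ), 0 < k → g ^ k = 1 → g = 1) ∧
    (∀ f : Fin 2 → FreeGroup (Fin n) ⧸ ⁅N, N⁆, ¬ Function.Injective ⇑(FreeSemigroup.lift f)) ∧
    (∃ A : Set (FreeGroup (Fin n) ⧸ ⁅N, N⁆), A.Nonempty ∧
      ¬ ∃ μ : Set (FreeGroup (Fin n) ⧸ ⁅N, N⁆) → ENNReal, μ A = 1 ∧ InvMeas μ) ∧
    (Folner (FreeGroup (Fin n) ⧸ N) → Folner (FreeGroup (Fin n) ⧸ ⁅N, N⁆) ∧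
      ∃ m : Set (FreeGroup (Fin n) ⧸ ⁅N, N⁆) → ENNReal, m Set.univ = 1 ∧ InvMeas m) := by
  refine ⟨?_, ?_, not_supramenable N hper, ?_⟩
  · intro g k hk hg
    obtain ⟨w, rfl⟩ := QuotientGroup.mk_surjective g
    rw [← QuotientGroup.mk_pow, QuotientGroup.eq_one_iff] at hg
    exact (QuotientGroup.eq_one_iff _).mpr (torsionfree N w k hk hg)
  · intro f
    obtain ⟨a, ha⟩ := QuotientGroup.mk_surjective (f 0)
    obtain ⟨b, hb⟩ := QuotientGroup.mk_surjective (f 1)
    obtain ⟨p, hp, hap⟩ := hper a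
    obtain ⟨q, hq, hbq⟩ := hper b
    apply no_free f p q hp hq
    rw [← ha, ← hb, ← QuotientGroup.mk_pow, ← QuotientGroup.mk_pow]
    exact mk_comm N hap hbq
  · intro hF
    have h1 : Folner (FreeGroup (Fin n) ⧸ ⁅N, N⁆) := by
      have hle : ⁅N, N⁆ ≤ N := Subgroup.commutator_le_self N
      let π : FreeGroup (Fin n) ⧸ ⁅N, N⁆ →* FreeGroup (Fin n) ⧸ N :=
        QuotientGroup.lift ⁅N, N⁆ (QuotientGroup.mk' N)
          (fun w hw => (QuotientGroup.eq_one_iff w).mpr (hle hw))
      apply ext_folner π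
      · intro y
        obtain ⟨w, rfl⟩ := QuotientGroup.mk_surjective y
        exact ⟨QuotientGroup.mk w, rfl⟩
      · intro a ha b hb
        obtain ⟨a, rfl⟩ := QuotientGroup.mk_surjective a
        obtain ⟨b, rfl⟩ := QuotientGroup.mk_surjective b
        have ha' : (QuotientGroup.mk a : FreeGroup (Fin n) ⧸ N) = 1 := ha
        have hb' : (QuotientGroup.mk b : FreeGroup (Fin n) ⧸ N) = 1 := hb
        rw [QuotientGroup.eq_one_iff] at ha' hb'
        exact mk_comm N ha' hb'
      · exact hF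
    exact ⟨h1, exists_meas h1⟩

end RzT
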