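import Pool.Agent.Lib.RzT.GInf
import Pool.Agent.Lib.RzT.GPer
import Pool.Agent.Lib.RzT.GGrowA
import Pool.Agent.Lib.RzT.GGrowB
import Pool.Agent.Lib.RzT.GFol
import Pool.Agent.Lib.RzT.Main

/-!
The Grigorchuk group as a quotient of a free group of rank 4.
-/

set_option autoImplicit false

namespace RzT

open Pool.Agent.Lib.Pb99418 Pool.Agent.Lib.Pb99418A

theorem nw_append (s t : List Gen) : nw (s ++ t) = nw s + nw t := by
  simp [nw]

theorem grig_folner : Folner G := by
  apply folner_of_growth EW EW_finite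
  · exact ⟨1, [], fun w => rfl, by simp [nw]⟩
  · rintro R R' hR g ⟨s, h1, h2⟩
    exact ⟨s, h1, h2.trans hR⟩
  · intro g
    obtain ⟨t, ht⟩ := exists_word g
    refine ⟨nw t, ?_⟩
    rintro R x ⟨s, h1, h2⟩
    refine ⟨t ++ s, fun w => ?_, ?_⟩
    · rw [run_append, ← h1, ← ht]
      rfl
    · rw [nw_append]
      omega
  · intro θ hθ
    exact subexp_of_rec (fun R => (EW R).ncard) EW_exp EW_rec θ hθ

/-- the four generators -/
def gens : Fin 4 → Gen := ![Gen.a, Gen.b, Gen.c, Gen.d]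

theorem gens_surj (g : Gen) : ∃ i, gens i = g := by
  cases g
  · exact ⟨0, rfl⟩
  · exact ⟨1, rfl⟩
  · exact ⟨2, rfl⟩
  · exact ⟨3, rfl⟩

/-- the standard map -/
def gmap : FreeGroup (Fin 4) →* G :=
  FreeGroup.lift fun i => ⟨gen (gens i), Subgroup.subset_closure ⟨gens i, rfl⟩⟩

theorem gmap_surj : Function.Surjective gmap := by
  intro g
  obtain ⟨s, hs⟩ := exists_word g
  have h : g = elt s := by
    apply Subtype.ext
    ext1 w
    rw [hs, elt_apply]
  rw [h]
  clear hs h
  induction s with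
  | nil => exact ⟨1, map_one _⟩
  | cons x s ih =>
    obtain ⟨v, hv⟩ := ih
    obtain ⟨i, hi⟩ := gens_surj x
    refine ⟨FreeGroup.of i * v, ?_⟩
    rw [map_mul, hv]
    subst hi
    simp [gmap, elt]

theorem exists_N : ∃ (N : Subgroup (FreeGroup (Fin 4))) (_ : N.Normal),
    Infinite (FreeGroup (Fin 4) ⧸ N) ∧ (∀ w : FreeGroup (Fin 4), ∃ k : ℕ, 0 < k ∧ w ^ k ∈ N) ∧
      Folner (FreeGroup (Fin 4) ⧸ N) := by
  let e : FreeGroup (Fin 4) ⧸ gmap.ker ≃* G :=
    QuotientGroup.quotientKerEquivOfSurjective gmap gmap_surj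
  refine ⟨gmap.ker, inferInstance, ?_, ?_, ?_⟩
  · have := grig_infinite
    exact e.toEquiv.infinite_iff.mpr this
  · intro w
    obtain ⟨k, hk, h⟩ := grig_periodic (gmap w)
    exact ⟨k, hk, by rw [MonoidHom.mem_ker, map_pow, h]⟩
  · apply ext_folner e.toMonoidHom e.surjective _ grig_folner
    intro a ha b hb
    have h1 : a = 1 := e.injective (by rw [map_one]; exact ha)
    have h2 : b = 1 := e.injective (by rw [map_one]; exact hb)
    rw [h1, h2]

end RzT
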