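import Pool.Agent.Lib.RzT.Defs

/-!
Module Ray. Sparse rays in infinite finitely generated groups.

Proof. `S' = S ∪ S⁻¹ ∪ D ∪ D⁻¹ ∪ {1}` (finite, symmetric, contains 1, generates). `B n` = set of
products of `n` elements of `S'` (for instance `((S' : Set H)) ^ n`, pointwise), monotone in `n`,
finite, `B a * B b = B (a+b)`, union `= univ`. For `s : ℕ → S'` put `Q s 0 = 1`,
`Q s (n+1) = Q s n * s n`. For every `n` there is `s` with `Q s n ∉ B (n-1)` (n ≥ 1): some `g ∉ B (n-1)`
exists (`H` infinite), write it as a shortest product, `g ∈ B k \ B (k-1)`, `k ≥ n`; its initial part of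
length `n` is not in `B (n-1)`. The sets `C n = {s : ℕ → S' | Q s (n+1) ∉ B n}` are closed (they depend
on finitely many coordinates, `S'` finite discrete), decreasing, nonempty, and `ℕ → S'` is compact: take
`s` in all of them (`IsCompact.nonempty_iInter_of_sequence_nonempty_isCompact_isClosed`). Then for `i < j`:
`(Q s i)⁻¹ * Q s j ∉ B (j-i-1)`. Put `t n = s (2n) * s (2n+1)`, `T = S' * S'`; then `pr t n = Q s (2n)` and
`(pr t i)⁻¹ * pr t j ∉ B (2(j-i)-1) ⊇ B 1 ⊇ D`.
-/

set_option autoImplicit false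

namespace RzT

/-- the products of the first terms of a sequence -/
def pr {H : Type} [Group H] (t : ℕ → H) : ℕ → H
  | 0 => 1
  | n + 1 => pr t n * t n

namespace RayAux

variable {H : Type} [Group H]

theorem pr_zero (s : ℕ → H) : pr s 0 = 1 := rfl

theorem pr_succ (s : ℕ → H) (n : ℕ) : pr s (n + 1) = pr s n * s n := rfl

/-- products of `n` elements of `A` -/
def Bl (A : Set H) (n : ℕ) : Set H := {x | ∃ s : ℕ → H, (∀ i, s i ∈ A) ∧ pr s n = x}

theorem pr_add (s : ℕ → H) (i j : ℕ) : pr s (i + j) = pr s i * pr (fun n => s (i + n)) j := by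
  induction j with
  | zero => simp [pr_zero]
  | succ j ih => rw [← add_assoc, pr_succ, pr_succ, ih, mul_assoc]

theorem pr_congr (s s' : ℕ → H) (n : ℕ) (h : ∀ i, i < n → s i = s' i) : pr s n = pr s' n := by
  induction n with
  | zero => rfl
  | succ n ih =>
    rw [pr_succ, pr_succ, ih fun i hi => h i (by omega), h n (by omega)]

theorem Bl_mul {A : Set H} {i j : ℕ} {x y : H} (hx : x ∈ Bl A i) (hy : y ∈ Bl A j) :
    x * y ∈ Bl A (i + j) := by
  obtain ⟨s, hs, rfl⟩ := hx
  obtain ⟨s', hs', rfl⟩ := hy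
  refine ⟨fun n => if n < i then s n else s' (n - i), fun n => ?_, ?_⟩
  · dsimp only
    split_ifs
    · exact hs n
    · exact hs' _
  · rw [pr_add]
    congr 1
    · exact pr_congr _ _ _ fun k hk => by simp [hk]
    · exact pr_congr _ _ _ fun k hk => by simp

theorem Bl_one {A : Set H} (h1 : (1 : H) ∈ A) (n : ℕ) : (1 : H) ∈ Bl A n := by
  refine ⟨fun _ => 1, fun _ => h1, ?_⟩
  induction n with
  | zero => rfl
  | succ n ih => rw [pr_succ, ih, one_mul]

theorem Bl_mono {A : Set H} (h1 : (1 : H) ∈ A) {n m : ℕ} (h : n ≤ m) : Bl A n ⊆ Bl A m := by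
  intro x hx
  obtain ⟨k, rfl⟩ := Nat.exists_eq_add_of_le h
  simpa using Bl_mul hx (Bl_one h1 k)

theorem Bl_single {A : Set H} {x : H} (hx : x ∈ A) : x ∈ Bl A 1 :=
  ⟨fun _ => x, fun _ => hx, by rw [pr_succ, pr_zero, one_mul]⟩

theorem Bl_finite {A : Set H} (hA : A.Finite) (n : ℕ) : (Bl A n).Finite := by
  induction n with
  | zero =>
    refine (Set.finite_singleton (1 : H)).subset ?_
    rintro x ⟨s, -, rfl⟩
    rfl
  | succ n ih =>
    refine (Set.Finite.image2 (fun a b => a * b) ih hA).subset ?_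
    rintro x ⟨s, hs, rfl⟩
    exact ⟨pr s n, ⟨s, hs, rfl⟩, s n, hs n, rfl⟩

theorem Bl_list {A : Set H} (h1 : (1 : H) ∈ A) (l : List H) (hl : ∀ x ∈ l, x ∈ A) :
    l.prod ∈ Bl A l.length := by
  induction l with
  | nil => exact Bl_one h1 0
  | cons x l ih =>
    rw [List.prod_cons, List.length_cons, Nat.add_comm]
    exact Bl_mul (Bl_single (hl x (by simp))) (ih fun y hy => hl y (by simp [hy]))

end RayAux

open RayAux in
theorem exists_ray {H : Type} [Group H] [Infinite H] (S : Finset H)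
    (hS : Subgroup.closure (S : Set H) = ⊤) (D : Finset H) :
    ∃ (T : Finset H) (t : ℕ → H), (∀ n, t n ∈ T) ∧
      ∀ i j : ℕ, i < j → (pr t i)⁻¹ * pr t j ∉ D := by
  classical
  let A : Finset H := S ∪ S.image (fun x => x⁻¹) ∪ D ∪ {1}
  have h1 : (1 : H) ∈ (A : Set H) := by simp [A]
  have hfin : (A : Set H).Finite := A.finite_toSet
  have hall : ∀ g : H, ∃ n, g ∈ Bl (A : Set H) n := by
    intro g
    have hg : g ∈ Subgroup.closure (S : Set H) := by rw [hS]; trivial
    rw [← Subgroup.mem_toSubmonoid, Subgroup.closure_toSubmonoid] at hg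
    obtain ⟨l, hl, rfl⟩ := Submonoid.exists_list_of_mem_closure hg
    refine ⟨l.length, Bl_list h1 l fun x hx => ?_⟩
    rcases hl x hx with h | h
    · have : x ∈ S := h
      simp [A, this]
    · have : x⁻¹ ∈ S := h
      simp [A, this]
  have hex : ∀ n : ℕ, ∃ s : ℕ → H, (∀ i, s i ∈ (A : Set H)) ∧ pr s (n + 1) ∉ Bl (A : Set H) n := by
    intro n
    obtain ⟨g, hg⟩ := (Bl_finite hfin n).exists_notMem
    have hk := Nat.find_spec (hall g)
    have hmin : ∀ m, m < Nat.find (hall g) → g ∉ Bl (A : Set H) m := fun m hm =>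
      Nat.find_min (hall g) hm
    set k := Nat.find (hall g) with hkdef
    have hnk : n + 1 ≤ k := by
      by_contra hcon
      exact hg (Bl_mono h1 (by omega) hk)
    obtain ⟨j, hj⟩ := Nat.exists_eq_add_of_le hnk
    obtain ⟨s, hs, hsg⟩ := hk
    refine ⟨s, hs, fun hcon => ?_⟩
    rw [hj, pr_add] at hsg
    have h2 : g ∈ Bl (A : Set H) (n + j) := by
      rw [← hsg]
      exact Bl_mul hcon ⟨_, fun i => hs _, rfl⟩
    exact hmin (n + j) (by omega) h2
  let _ : TopologicalSpace H := ⊥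
  have : DiscreteTopology H := ⟨rfl⟩
  let C : ℕ → Set (ℕ → H) := fun n =>
    (Set.univ.pi fun _ => (A : Set H)) ∩ {s | pr s (n + 1) ∉ Bl (A : Set H) n}
  have hcont : ∀ n : ℕ, Continuous fun s : ℕ → H => pr s n := by
    intro n
    induction n with
    | zero => exact continuous_const
    | succ n ih => exact ih.mul (continuous_apply n)
  have hKc : IsCompact (Set.univ.pi fun _ : ℕ => (A : Set H)) :=
    isCompact_univ_pi fun _ => hfin.isCompact
  have hcl : ∀ n, IsClosed (C n) := fun n =>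
    hKc.isClosed.inter ((isClosed_discrete ((Bl (A : Set H) n)ᶜ)).preimage (hcont (n + 1)))
  obtain ⟨s, hs⟩ := IsCompact.nonempty_iInter_of_sequence_nonempty_isCompact_isClosed C
    (by
      rintro n s ⟨hs, hs'⟩
      refine ⟨hs, fun hcon => hs' ?_⟩
      rw [pr_succ]
      exact Bl_mul hcon (Bl_single (hs (n + 1) (Set.mem_univ _))))
    (by
      intro n
      obtain ⟨s, hs, hs'⟩ := hex n
      exact ⟨s, fun i _ => hs i, hs'⟩)
    (hKc.of_isClosed_subset (hcl 0) Set.inter_subset_left) hcl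
  have hsA : ∀ i, s i ∈ A := fun i => (Set.mem_iInter.1 hs 0).1 i (Set.mem_univ _)
  have hsB : ∀ n, pr s (n + 1) ∉ Bl (A : Set H) n := fun n => (Set.mem_iInter.1 hs n).2
  refine ⟨Finset.image₂ (fun x y => x * y) A A, fun n => s (2 * n) * s (2 * n + 1), fun n =>
    Finset.mem_image₂_of_mem (hsA _) (hsA _), ?_⟩
  have hpr : ∀ n, pr (fun n => s (2 * n) * s (2 * n + 1)) n = pr s (2 * n) := by
    intro n
    induction n with
    | zero => rfl
    | succ n ih =>
      rw [pr_succ, ih, Nat.mul_succ, show 2 * n + 2 = 2 * n + 1 + 1 from rfl, pr_succ, pr_succ,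
        mul_assoc]
  intro i j hij hD
  rw [hpr, hpr] at hD
  have h3 : (pr s (2 * i))⁻¹ * pr s (2 * j) ∈ Bl (A : Set H) 1 := Bl_single (by simp [A, hD])
  have h4 : pr s (2 * i) * ((pr s (2 * i))⁻¹ * pr s (2 * j)) ∈ Bl (A : Set H) (2 * i + 1) :=
    Bl_mul ⟨s, hsA, rfl⟩ h3
  rw [mul_inv_cancel_left] at h4
  have h5 := Bl_mono h1 (show 2 * i + 1 ≤ 2 * j - 1 by omega) h4
  have h6 := hsB (2 * j - 1)
  rw [show 2 * j - 1 + 1 = 2 * j by omega] at h6
  exact h6 h5

end RzT
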