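import Pool.Agent.Lib.RzT.Tree
import Pool.Agent.Lib.RzT.Ray

/-!
The flow through the edges labelled by one generator, as a homomorphism into a wreath product.
-/

set_option autoImplicit false

namespace RzT

/-- the unrestricted wreath product of `ℤ` by `H` -/
@[ext] structure W (H : Type) where
  /-- the function part -/
  f : H → ℤ
  /-- the top part -/
  h : H

namespace W

variable {H : Type} [Group H]

instance : Mul (W H) := ⟨fun a b => ⟨fun y => a.f y + b.f (a.h⁻¹ * y), a.h * b.h⟩⟩
instance : One (W H) := ⟨⟨fun _ => 0, 1⟩⟩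
instance : Inv (W H) := ⟨fun a => ⟨fun y => - a.f (a.h * y), a.h⁻¹⟩⟩

theorem mul_f (a b : W H) (y : H) : (a * b).f y = a.f y + b.f (a.h⁻¹ * y) := rfl
theorem mul_h (a b : W H) : (a * b).h = a.h * b.h := rfl
theorem one_f (y : H) : (1 : W H).f y = 0 := rfl
theorem one_h : (1 : W H).h = 1 := rfl
theorem inv_f (a : W H) (y : H) : (a⁻¹).f y = - a.f (a.h * y) := rfl
theorem inv_h (a : W H) : (a⁻¹).h = a.h⁻¹ := rfl

instance : Group (W H) := Group.ofLeftAxioms
  (by
    intro a b c
    ext y
    · simp only [mul_f, mul_h, mul_inv_rev, mul_assoc, add_assoc]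
    · simp only [mul_h, mul_assoc])
  (by
    intro a
    ext y
    · simp [mul_f, one_f, one_h]
    · simp [mul_h, one_h])
  (by
    intro a
    ext y
    · simp [mul_f, one_f, inv_f, inv_h]
    · simp [mul_h, one_h, inv_h])

/-- the projection to the top group -/
def top : W H →* H where
  toFun := fun a => a.h
  map_one' := rfl
  map_mul' := fun _ _ => rfl

theorem top_apply (a : W H) : top a = a.h := rfl

theorem comm_of_h {a b : W H} (ha : a.h = 1) (hb : b.h = 1) : a * b = b * a := by
  ext y
  · simp [mul_f, ha, hb, add_comm]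
  · simp [mul_h, ha, hb]

/-- powers of the standard element -/
theorem pow_spec {a : W H} (h0 : ∀ y, 0 ≤ a.f y) (h1 : a.f 1 = 1) (hy : ∀ y, y ≠ 1 → a.f y = 0)
    (m : ℕ) : (a ^ m).h = a.h ^ m ∧ (∀ y, 0 ≤ (a ^ m).f y) ∧ (0 < m → 1 ≤ (a ^ m).f 1) ∧
      ∀ y, y ∉ Subgroup.zpowers a.h → (a ^ m).f y = 0 := by
  induction m with
  | zero => simp [one_f, one_h]
  | succ m ih =>
    obtain ⟨i1, i2, i3, i4⟩ := ih
    rw [pow_succ']
    refine ⟨by rw [mul_h, i1, pow_succ'], fun y => ?_, fun _ => ?_, fun y hy' => ?_⟩
    · rw [mul_f]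
      exact add_nonneg (h0 y) (i2 _)
    · rw [mul_f, h1]
      have := i2 (a.h⁻¹ * 1)
      omega
    · rw [mul_f, hy y (by rintro rfl; exact hy' (one_mem _)), i4, add_zero]
      intro hc
      exact hy' ((Subgroup.mul_mem_cancel_left _
        (inv_mem (Subgroup.mem_zpowers a.h))).mp hc)

end W

variable {G H : Type} [Group G] [Group H]

theorem node_h (Ψ : G →* W H) (t : ℕ → G) (c : G) (hc : (Ψ c).h = 1) (l : List Bool) :
    (Ψ (node t c l)).h = pr (fun n => (Ψ (t n)).h) l.length := by
  induction l with
  | nil => simp [node, pr, W.one_h]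
  | cons b l ih =>
    have hb : (Ψ (if b then c else 1)).h = 1 := by
      cases b <;> simp [hc, W.one_h]
    simp only [node, map_mul, W.mul_h, ih, hb, mul_one, List.length_cons, pr]

theorem node_inj (Ψ : G →* W H) (t : ℕ → G) (c : G) (D : Subgroup H) (hc : (Ψ c).h = 1)
    (hc1 : 1 ≤ (Ψ c).f 1) (hcD : ∀ y, y ∉ D → (Ψ c).f y = 0)
    (hD : ∀ i j : ℕ, i < j → (pr (fun n => (Ψ (t n)).h) i)⁻¹ * pr (fun n => (Ψ (t n)).h) j ∉ D) :
    Function.Injective (node t c) := by
  set P := pr (fun n => (Ψ (t n)).h) with hP
  have hD' : ∀ i j : ℕ, i ≠ j → (P i)⁻¹ * P j ∉ D := by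
    intro i j hij hm
    rcases lt_or_gt_of_ne hij with h | h
    · exact hD i j h hm
    · apply hD j i h
      have := inv_mem hm
      simpa using this
  have hPinj : Function.Injective P := by
    intro i j hij
    by_contra hne
    apply hD' i j hne
    rw [hij, inv_mul_cancel]
    exact one_mem _
  have step : ∀ (b : Bool) (l : List Bool) (y : H), (Ψ (node t c (b :: l))).f y =
      (Ψ (node t c l)).f y + (Ψ (t l.length)).f ((P l.length)⁻¹ * y) +
        (if b then (Ψ c).f ((P (l.length + 1))⁻¹ * y) else 0) := by
    intro b l y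
    have h1 : (Ψ (node t c l)).h = P l.length := node_h Ψ t c hc l
    have h2 : (Ψ (node t c l * t l.length)).h = P (l.length + 1) := by
      rw [map_mul, W.mul_h, h1, hP, pr]
    rw [node, map_mul, W.mul_f, h2, map_mul, W.mul_f, h1]
    cases b
    · simp [W.one_f]
    · simp
  have key : ∀ (l l' : List Bool), l.length = l'.length →
      (∀ j < l.length, (Ψ (node t c l)).f (P (j + 1)) = (Ψ (node t c l')).f (P (j + 1))) →
      l = l' := by
    intro l
    induction l with
    | nil =>
      intro l' hl _
      have : l'.length = 0 := by simpa using hl.symm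
      exact (List.length_eq_zero_iff.mp this).symm
    | cons b l ih =>
      intro l' hl hf
      cases l' with
      | nil => simp at hl
      | cons b' l' =>
        have hl2 : l.length = l'.length := by simpa using hl
        have h1 : l = l' := by
          apply ih l' hl2
          intro j hj
          have h2 := hf j (by simp; omega)
          rw [step, step, ← hl2] at h2
          have h3 : (Ψ c).f ((P (l.length + 1))⁻¹ * P (j + 1)) = 0 :=
            hcD _ (hD' _ _ (by omega))
          simp only [h3, ite_self, add_zero] at h2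
          exact add_right_cancel h2
        subst h1
        have h2 := hf l.length (by simp)
        rw [step, step] at h2
        have h3 := add_left_cancel h2
        rw [inv_mul_cancel] at h3
        cases b <;> cases b' <;> simp_all
  intro l l' hll
  have hlen : l.length = l'.length := by
    apply hPinj
    rw [hP, ← node_h Ψ t c hc l, ← node_h Ψ t c hc l', hll]
  exact key l l' hlen (fun j _ => by rw [hll])

end RzT
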